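import Mathlib

set_option autoImplicit false

namespace Pool.Agent.H.MP_0daf67_co

open Finset

variable {V : Type} [Fintype V] [DecidableEq V] {G : SimpleGraph V} [DecidableRel G.Adj]

/-- no neighbourhood contains a path on `2k+1` vertices -/
def NP (G : SimpleGraph V) (k : ℕ) : Prop :=
  ∀ (c : V) (L : List V), L.Nodup → L.IsChain G.Adj → (∀ v ∈ L, G.Adj c v) → L.length ≤ 2 * k

omit [Fintype V] [DecidableRel G.Adj] in
lemma ext (Y : Finset V) : ∀ (a : V) (Q : List V) (C : Finset V), (a :: Q).Nodup →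
    (a :: Q).IsChain G.Adj → (∀ y ∈ Y, G.Adj y a) → (∀ y ∈ Y, ∀ b ∈ C, G.Adj y b) →
    (∀ v ∈ a :: Q, v ∉ Y ∧ v ∉ C) → #Y ≤ #C →
    ∃ b R, (b :: R).Nodup ∧ (b :: R).IsChain G.Adj ∧ R.length = Q.length + 2 * #Y ∧
      (∀ v ∈ b :: R, v ∈ a :: Q ∨ v ∈ Y ∨ v ∈ C) ∧ (b = a ∨ b ∈ C) := by
  induction Y using Finset.induction_on with
  | empty =>
    intro a Q C h1 h2 _ _ _ _
    exact ⟨a, Q, h1, h2, by simp, fun v hv => Or.inl hv, Or.inl rfl⟩
  | insert y Y hy ih =>
    intro a Q C h1 h2 h3 h4 h5 h6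
    rw [card_insert_of_notMem hy] at h6
    obtain ⟨b, hb⟩ : C.Nonempty := card_pos.mp (by omega)
    have yb := h4 y (mem_insert_self _ _) b hb
    have n1 : y ∉ a :: Q := fun c => (h5 y c).1 (mem_insert_self _ _)
    have n2 : b ∉ a :: Q := fun c => (h5 b c).2 hb
    obtain ⟨b', R, r1, r2, r3, r4, r5⟩ := ih b (y :: a :: Q) (C.erase b)
      (List.nodup_cons.mpr ⟨by
        rw [List.mem_cons]; rintro (c | c)
        · exact yb.ne c.symm
        · exact n2 c, List.nodup_cons.mpr ⟨n1, h1⟩⟩)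
      (List.isChain_cons_cons.mpr ⟨yb.symm, List.isChain_cons_cons.mpr
        ⟨h3 y (mem_insert_self _ _), h2⟩⟩)
      (fun z hz => h4 z (mem_insert_of_mem hz) b hb)
      (fun z hz d hd => h4 z (mem_insert_of_mem hz) d (mem_of_mem_erase hd))
      (by
        intro v hv
        rw [List.mem_cons, List.mem_cons] at hv
        rcases hv with rfl | rfl | hv
        · exact ⟨fun c => (h4 v (mem_insert_of_mem c) v hb).ne rfl, notMem_erase _ _⟩
        · exact ⟨hy, fun c => (h4 v (mem_insert_self _ _) v (mem_of_mem_erase c)).ne rfl⟩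
        · exact ⟨fun c => (h5 v hv).1 (mem_insert_of_mem c),
            fun c => (h5 v hv).2 (mem_of_mem_erase c)⟩)
      (by rw [card_erase_of_mem hb]; omega)
    refine ⟨b', R, r1, r2, by rw [r3, card_insert_of_notMem hy]; simp; omega, fun v hv => ?_, ?_⟩
    · rcases r4 v hv with c | c | c
      · rw [List.mem_cons, List.mem_cons] at c
        rcases c with rfl | rfl | c
        · exact Or.inr (Or.inr hb)
        · exact Or.inr (Or.inl (mem_insert_self _ _))
        · exact Or.inl c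
      · exact Or.inr (Or.inl (mem_insert_of_mem c))
      · exact Or.inr (Or.inr (mem_of_mem_erase c))
    · rcases r5 with rfl | c
      · exact Or.inr hb
      · exact Or.inr (mem_of_mem_erase c)

omit [Fintype V] [DecidableRel G.Adj] in
lemma NP.kk {k : ℕ} (h : NP G k) (c : V) (Y C : Finset V) (hY : #Y = k) (hC : k + 1 ≤ #C)
    (h1 : ∀ y ∈ Y, G.Adj c y) (h2 : ∀ b ∈ C, G.Adj c b) (h3 : ∀ y ∈ Y, ∀ b ∈ C, G.Adj y b) :
    False := by
  obtain ⟨a, ha⟩ : C.Nonempty := card_pos.mp (by omega)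
  obtain ⟨b, R, r1, r2, r3, r4, -⟩ := ext (G := G) Y a [] (C.erase a) (by simp) (by simp)
    (fun y hy => h3 y hy a ha) (fun y hy b hb => h3 y hy b (mem_of_mem_erase hb))
    (by
      intro v hv
      rw [List.mem_singleton] at hv
      subst hv
      exact ⟨fun e => (h3 v e v ha).ne rfl, notMem_erase _ _⟩)
    (by rw [card_erase_of_mem ha]; omega)
  have := h c _ r1 r2 (fun v hv => by
    rcases r4 v hv with e | e | e
    · rw [List.mem_singleton] at e; subst e; exact h2 v ha
    · exact h1 v e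
    · exact h2 v (mem_of_mem_erase e))
  simp at this r3
  omega

omit [Fintype V] [DecidableRel G.Adj] in
lemma NP.two {k : ℕ} (h : NP G k) (c : V) (J C : Finset V) (hJ : J.Nonempty)
    (a a' : V) (Q Q' : List V) (n1 : (a :: Q).Nodup) (n2 : (a' :: Q').Nodup)
    (c1 : (a :: Q).IsChain G.Adj) (c2 : (a' :: Q').IsChain G.Adj)
    (dj : ∀ v ∈ a :: Q, v ∉ a' :: Q') (d1 : ∀ v ∈ a :: Q, v ∉ J ∧ v ∉ C ∧ G.Adj c v)
    (d2 : ∀ v ∈ a' :: Q', v ∉ J ∧ v ∉ C ∧ G.Adj c v) (hC : #J ≤ #C + 1)
    (h1 : ∀ y ∈ J, G.Adj c y ∧ G.Adj y a ∧ G.Adj y a') (h2 : ∀ b ∈ C, G.Adj c b)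
    (h3 : ∀ y ∈ J, ∀ b ∈ C, G.Adj y b) : Q.length + Q'.length + 2 * #J + 1 ≤ 2 * k := by
  obtain ⟨y, hy⟩ := hJ
  obtain ⟨b, R, r1, r2, r3, r4, r5⟩ := ext (G := G) (J.erase y) a Q C n1 c1
    (fun z hz => (h1 z (mem_of_mem_erase hz)).2.1) (fun z hz => h3 z (mem_of_mem_erase hz))
    (fun v hv => ⟨fun e => (d1 v hv).1 (mem_of_mem_erase e), (d1 v hv).2.1⟩)
    (by rw [card_erase_of_mem hy]; omega)
  have yb : G.Adj y b := by
    rcases r5 with rfl | e
    · exact (h1 y hy).2.1
    · exact h3 y hy b e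
  have := h c ((a' :: Q').reverse ++ y :: b :: R) ?_ ?_ ?_
  · rw [card_erase_of_mem hy] at r3
    have := card_pos.mpr ⟨y, hy⟩
    simp at *
    omega
  · rw [List.nodup_append]
    refine ⟨List.nodup_reverse.mpr n2, List.nodup_cons.mpr ⟨fun e => ?_, r1⟩, ?_⟩
    · rcases r4 y e with e | e | e
      · exact (d1 y e).1 hy
      · exact notMem_erase _ _ e
      · exact (h3 y hy y e).ne rfl
    · intro v hv w hw e
      subst e
      rw [List.mem_reverse] at hv
      rcases List.mem_cons.mp hw with rfl | hw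
      · exact (d2 v hv).1 hy
      · rcases r4 v hw with e | e | e
        · exact dj v e hv
        · exact (d2 v hv).1 (mem_of_mem_erase e)
        · exact (d2 v hv).2.1 e
  · rw [List.isChain_append]
    refine ⟨List.isChain_reverse.mpr (c2.imp fun _ _ e => e.symm),
      List.isChain_cons_cons.mpr ⟨yb, r2⟩, ?_⟩
    intro p hp q hq
    simp at hp hq
    subst hp hq
    exact (h1 y hy).2.2.symm
  · intro v hv
    rcases List.mem_append.mp hv with e | e
    · exact (d2 v (List.mem_reverse.mp e)).2.2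
    · rcases List.mem_cons.mp e with rfl | e
      · exact (h1 v hy).1
      · rcases r4 v e with e | e | e
        · exact (d1 v e).2.2
        · exact (h1 v (mem_of_mem_erase e)).1
        · exact h2 v e

omit [Fintype V] in
lemma longest (T : Finset V) (hT : T.Nonempty) : ∃ v Q, (v :: Q).Nodup ∧
    (v :: Q).IsChain G.Adj ∧ (∀ z ∈ v :: Q, z ∈ T) ∧ #(T.filter (G.Adj v)) ≤ Q.length := by
  classical
  let P : ℕ → Prop := fun n => ∃ v Q, (v :: Q).Nodup ∧ (v :: Q).IsChain G.Adj ∧
    (∀ z ∈ v :: Q, z ∈ T) ∧ Q.length = n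
  have bd : ∀ n, P n → n ≤ #T := by
    rintro n ⟨v, Q, h1, -, h3, rfl⟩
    have := card_le_card (s := (v :: Q).toFinset) (t := T) (fun z hz => h3 z (by simpa using hz))
    rw [List.toFinset_card_of_nodup h1] at this
    simp at this; omega
  obtain ⟨a, ha⟩ := hT
  have p0 : P 0 := ⟨a, [], by simp, by simp, by simpa using ha, rfl⟩
  obtain ⟨v, Q, h1, h2, h3, h4⟩ := Nat.findGreatest_spec (P := P) (Nat.zero_le #T) p0
  refine ⟨v, Q, h1, h2, h3, ?_⟩
  refine le_trans (card_le_card (t := Q.toFinset) fun z hz => ?_) (List.toFinset_card_le Q)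
  rw [mem_filter] at hz
  by_contra c
  have pn : P (Q.length + 1) := ⟨z, v :: Q, List.nodup_cons.mpr ⟨by
      rw [List.mem_cons]; rintro (e | e)
      · exact hz.2.ne e.symm
      · exact c (List.mem_toFinset.mpr e), h1⟩, List.isChain_cons_cons.mpr ⟨hz.2.symm, h2⟩, by
    intro w hw
    rcases List.mem_cons.mp hw with rfl | hw
    · exact hz.1
    · exact h3 w hw, by simp⟩
  have := Nat.le_findGreatest (bd _ pn) pn
  omega

/-- sum over adjacent ordered pairs -/
def D (G : SimpleGraph V) [DecidableRel G.Adj] (S T : Finset V) (f : V → V → ℝ) : ℝ :=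
  ∑ v ∈ S, ∑ w ∈ T, if G.Adj v w then f v w else 0

omit [Fintype V] [DecidableEq V] in
lemma D_comm (S T : Finset V) (f : V → V → ℝ) : D G S T f = D G T S (fun v w => f w v) := by
  unfold D
  rw [sum_comm]
  refine sum_congr rfl fun v _ => sum_congr rfl fun w _ => ?_
  simp only [G.adj_comm]

omit [Fintype V] [DecidableEq V] in
lemma D_mono {S T : Finset V} {f g : V → V → ℝ}
    (h : ∀ v ∈ S, ∀ w ∈ T, G.Adj v w → f v w ≤ g v w) : D G S T f ≤ D G S T g := by
  refine sum_le_sum fun v hv => sum_le_sum fun w hw => ?_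
  split_ifs with e
  · exact h v hv w hw e
  · exact le_rfl

omit [Fintype V] [DecidableEq V] in
lemma D_nonneg {S T : Finset V} {f : V → V → ℝ} (h : ∀ v w, 0 ≤ f v w) : 0 ≤ D G S T f := by
  refine sum_nonneg fun v _ => sum_nonneg fun w _ => ?_
  split_ifs
  · exact h v w
  · exact le_rfl

omit [Fintype V] in
lemma D_left {S A : Finset V} (h : A ⊆ S) (T : Finset V) (f : V → V → ℝ) :
    D G S T f = D G A T f + D G (S \ A) T f := by
  unfold D; rw [← sum_sdiff h, add_comm]

omit [Fintype V] in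
lemma D_right {T A : Finset V} (h : A ⊆ T) (S : Finset V) (f : V → V → ℝ) :
    D G S T f = D G S A f + D G S (T \ A) f := by
  unfold D; rw [← sum_add_distrib]
  exact sum_congr rfl fun v _ => by rw [← sum_sdiff h, add_comm]

omit [Fintype V] in
lemma D_split {S A : Finset V} (h : A ⊆ S) (f : V → V → ℝ) (hf : ∀ v w, f v w = f w v) :
    D G S S f = D G A A f + 2 * D G A (S \ A) f + D G (S \ A) (S \ A) f := by
  rw [D_left h, D_right h, D_right h (S \ A), D_comm (S \ A) A]
  simp only [hf]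
  ring

omit [Fintype V] in
lemma deg (x b : V → ℝ) (hx : ∀ v, 0 ≤ x v) (S : Finset V)
    (h : ∀ T ⊆ S, T.Nonempty → ∃ v ∈ T, (#(T.filter (G.Adj v)) : ℝ) ≤ b v) :
    D G S S (fun v w => min (x v) (x w)) ≤ 2 * ∑ v ∈ S, b v * x v := by
  induction S using Finset.strongInduction with
  | H S ih =>
    rcases S.eq_empty_or_nonempty with rfl | hS
    · simp [D]
    obtain ⟨v, hv, hb⟩ := h S le_rfl hS
    have sub : {v} ⊆ S := singleton_subset_iff.mpr hv
    have i1 := ih (S \ {v}) (sdiff_ssubset sub (singleton_nonempty v))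
      (fun T hT => h T (hT.trans sdiff_subset))
    rw [D_split sub _ (fun a c => min_comm _ _), ← sum_sdiff sub, sum_singleton]
    have e1 : D G {v} {v} (fun v w => min (x v) (x w)) = 0 := by simp [D]
    have e2 : D G {v} (S \ {v}) (fun v w => min (x v) (x w)) ≤ b v * x v := by
      calc _ ≤ D G {v} (S \ {v}) (fun v _ => x v) := D_mono fun _ _ _ _ _ => min_le_left _ _
        _ = #((S \ {v}).filter (G.Adj v)) * x v := by
          simp only [D, sum_singleton]; rw [← sum_filter]; simp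
        _ ≤ #(S.filter (G.Adj v)) * x v := by
          refine mul_le_mul_of_nonneg_right ?_ (hx v)
          exact_mod_cast card_le_card (filter_subset_filter _ sdiff_subset)
        _ ≤ _ := mul_le_mul_of_nonneg_right hb (hx v)
    linarith

end Pool.Agent.H.MP_0daf67_co
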