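import Mathlib
import Pool.Agent.H.MP_0daf67_co.A

set_option autoImplicit false

namespace Pool.Agent.H.MP_0daf67_co

open Finset

variable {V : Type} [Fintype V] [DecidableEq V] {G : SimpleGraph V} [DecidableRel G.Adj]

structure Eig (G : SimpleGraph V) [DecidableRel G.Adj] (k : ℕ) (x : V → ℝ) (lam : ℝ) (u : V) :
    Prop where
  np : NP G k
  k2 : 2 ≤ k
  nn : ∀ v, 0 ≤ x v
  le : ∀ v, x v ≤ 1
  xu : x u = 1
  eig : ∀ v, lam * x v = ∑ w, if G.Adj v w then x w else 0
  low : D G univ univ (fun _ _ => 1) ≤ 2 * lam ^ 2 - 2 * (k - 1) * lam + k * (k - 1) + k / 2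

def UU (G : SimpleGraph V) [DecidableRel G.Adj] (u : V) : Finset V := univ.filter (G.Adj u)
def WW (G : SimpleGraph V) [DecidableRel G.Adj] (u : V) : Finset V :=
  univ.filter fun v => v ≠ u ∧ ¬ G.Adj u v
def wn (G : SimpleGraph V) [DecidableRel G.Adj] (x : V → ℝ) (S : Finset V) (v : V) : ℝ :=
  ∑ w ∈ S, if G.Adj v w then x w else 0
def dn (G : SimpleGraph V) [DecidableRel G.Adj] (S : Finset V) (v : V) : ℝ :=
  ∑ w ∈ S, if G.Adj v w then 1 else 0
def miss (G : SimpleGraph V) [DecidableRel G.Adj] (x : V → ℝ) (u v : V) : ℝ :=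
  ∑ w ∈ UU G u, if G.Adj v w then 0 else x w
def ell (G : SimpleGraph V) [DecidableRel G.Adj] (x : V → ℝ) (u v : V) : ℝ :=
  ∑ w ∈ WW G u, if G.Adj v w then 1 - x w else 0

variable {k : ℕ} {x : V → ℝ} {lam : ℝ} {u : V}

omit [DecidableEq V] in
lemma mem_U {v : V} : v ∈ UU G u ↔ G.Adj u v := by simp [UU]
lemma mem_W {v : V} : v ∈ WW G u ↔ v ≠ u ∧ ¬ G.Adj u v := by simp [WW]

lemma sumV (f : V → ℝ) : ∑ v, f v = f u + ∑ v ∈ UU G u, f v + ∑ v ∈ WW G u, f v := by
  rw [← sum_filter_add_sum_filter_not univ (G.Adj u),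
    ← sum_filter_add_sum_filter_not (univ.filter fun v => ¬ G.Adj u v) (fun v => v = u)]
  have e1 : ((univ.filter fun v => ¬ G.Adj u v).filter fun v => v = u) = {u} := by
    ext v; simp; rintro rfl; exact G.loopless.irrefl _
  have e2 : ((univ.filter fun v => ¬ G.Adj u v).filter fun v => ¬ v = u) = WW G u := by
    ext v; simp [WW, and_comm]
  rw [e1, e2, sum_singleton, UU]; ring

omit [Fintype V] [DecidableEq V] in
lemma dn_eq (S : Finset V) (v : V) : dn G S v = #(S.filter (G.Adj v)) := by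
  simp [dn, sum_ite]

omit [Fintype V] [DecidableEq V] in
lemma dn_nonneg (S : Finset V) (v : V) : 0 ≤ dn G S v := by rw [dn_eq]; positivity

omit [Fintype V] [DecidableEq V] in
lemma dn_le (S : Finset V) (v : V) : dn G S v ≤ #S := by
  rw [dn_eq]; exact_mod_cast card_filter_le _ _

omit [Fintype V] [DecidableEq V] in
lemma D_dn (S T : Finset V) (f : V → ℝ) :
    D G S T (fun v _ => f v) = ∑ v ∈ S, dn G T v * f v := by
  refine sum_congr rfl fun v _ => ?_
  rw [dn, sum_mul]
  exact sum_congr rfl fun w _ => by split_ifs <;> simp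

lemma Eig.K2 (h : Eig G k x lam u) : (2 : ℝ) ≤ k := by exact_mod_cast h.k2

lemma Eig.wn_nonneg (h : Eig G k x lam u) (S : Finset V) (v : V) : 0 ≤ wn G x S v :=
  sum_nonneg fun w _ => by split_ifs; exacts [h.nn w, le_rfl]

lemma Eig.wn_le (h : Eig G k x lam u) (S : Finset V) (v : V) : wn G x S v ≤ dn G S v :=
  sum_le_sum fun w _ => by split_ifs; exacts [h.le w, le_rfl]

lemma Eig.wn_mono (h : Eig G k x lam u) {S T : Finset V} (hS : S ⊆ T) (v : V) :
    wn G x S v ≤ wn G x T v :=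
  sum_le_sum_of_subset_of_nonneg hS fun w _ _ => by split_ifs; exacts [h.nn w, le_rfl]

lemma Eig.wn_lam (h : Eig G k x lam u) (S : Finset V) (v : V) : wn G x S v ≤ lam * x v := by
  rw [h.eig]; exact h.wn_mono (subset_univ S) v

lemma Eig.wt_le (h : Eig G k x lam u) (S : Finset V) : ∑ v ∈ S, x v ≤ #S := by
  simpa using sum_le_card_nsmul S x 1 fun v _ => h.le v

lemma Eig.miss_nonneg (h : Eig G k x lam u) (v : V) : 0 ≤ miss G x u v :=
  sum_nonneg fun w _ => by split_ifs; exacts [le_rfl, h.nn w]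

lemma Eig.ell_nonneg (h : Eig G k x lam u) (v : V) : 0 ≤ ell G x u v :=
  sum_nonneg fun w _ => by split_ifs; exacts [by linarith [h.le w], le_rfl]

lemma Eig.lamU (h : Eig G k x lam u) : lam = ∑ v ∈ UU G u, x v := by
  have := h.eig u
  rw [h.xu, mul_one] at this
  rw [this, UU, sum_filter]

lemma Eig.wtU (h : Eig G k x lam u) {S : Finset V} (hS : S ⊆ UU G u) : ∑ v ∈ S, x v ≤ lam := by
  rw [h.lamU]; exact sum_le_sum_of_subset_of_nonneg hS fun v _ _ => h.nn v

lemma Eig.miss_eq (h : Eig G k x lam u) (v : V) : wn G x (UU G u) v + miss G x u v = lam := by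
  rw [h.lamU, wn, miss, ← sum_add_distrib]
  exact sum_congr rfl fun w _ => by split_ifs <;> simp

lemma Eig.miss_u (h : Eig G k x lam u) : miss G x u u = 0 :=
  sum_eq_zero fun w hw => by rw [if_pos (mem_U.mp hw)]

lemma Eig.eigU (h : Eig G k x lam u) {v : V} (hv : v ∈ UU G u) :
    lam * x v = 1 + wn G x (UU G u) v + wn G x (WW G u) v := by
  rw [h.eig, sumV (G := G) (u := u), if_pos (mem_U.mp hv).symm, h.xu]; rfl

lemma Eig.eigW (h : Eig G k x lam u) {v : V} (hv : v ∈ WW G u) :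
    lam * x v = wn G x (UU G u) v + wn G x (WW G u) v := by
  rw [h.eig, sumV (G := G) (u := u), if_neg (fun e => (mem_W.mp hv).2 e.symm), zero_add]; rfl

lemma Eig.star (h : Eig G k x lam u) : 2 * (k - 1) * lam - k * (k - 1) - k / 2 ≤
    D G (UU G u) (UU G u) (fun v w => x v + x w - 1) - 2 * ∑ v ∈ UU G u, ell G x u v -
      D G (WW G u) (WW G u) (fun _ _ => 1) := by
  have e1 : lam ^ 2 = #(UU G u) + D G (UU G u) (UU G u) (fun _ w => x w) +
      D G (UU G u) (WW G u) (fun _ w => x w) := by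
    calc lam ^ 2 = ∑ v ∈ UU G u, lam * x v := by rw [← mul_sum, ← h.lamU]; ring
      _ = ∑ v ∈ UU G u, (1 + wn G x (UU G u) v + wn G x (WW G u) v) :=
        sum_congr rfl fun v hv => h.eigU hv
      _ = _ := by rw [sum_add_distrib, sum_add_distrib]; simp [D, wn]
  have e2 : D G univ univ (fun _ _ => 1) = 2 * #(UU G u) + D G (UU G u) (UU G u) (fun _ _ => 1) +
      2 * D G (UU G u) (WW G u) (fun _ _ => 1) + D G (WW G u) (WW G u) (fun _ _ => 1) := by
    have a1 : ∑ w, (if G.Adj u w then (1 : ℝ) else 0) = #(UU G u) := by simp [UU]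
    have a2 : ∑ v ∈ UU G u, ∑ w, (if G.Adj v w then (1 : ℝ) else 0) = #(UU G u) +
        D G (UU G u) (UU G u) (fun _ _ => 1) + D G (UU G u) (WW G u) (fun _ _ => 1) := by
      rw [sum_congr rfl fun v hv => by
        rw [sumV (G := G) (u := u), if_pos (mem_U.mp hv).symm], sum_add_distrib, sum_add_distrib]
      simp [D]
    have a3 : ∑ v ∈ WW G u, ∑ w, (if G.Adj v w then (1 : ℝ) else 0) =
        D G (WW G u) (UU G u) (fun _ _ => 1) + D G (WW G u) (WW G u) (fun _ _ => 1) := by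
      rw [sum_congr rfl fun v hv => by
        rw [sumV (G := G) (u := u), if_neg (fun e => (mem_W.mp hv).2 e.symm), zero_add],
        sum_add_distrib]
      rfl
    rw [D, sumV (G := G) (u := u), a1, a2, a3, D_comm (WW G u) (UU G u)]
    ring
  have e3 : D G (UU G u) (UU G u) (fun v w => x v + x w - 1) =
      2 * D G (UU G u) (UU G u) (fun _ w => x w) - D G (UU G u) (UU G u) (fun _ _ => 1) := by
    rw [two_mul]
    nth_rewrite 1 [D_comm (UU G u) (UU G u) (fun _ w => x w)]
    simp only [D, ← sum_add_distrib, ← sum_sub_distrib]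
    refine sum_congr rfl fun v _ => sum_congr rfl fun w _ => ?_
    split_ifs <;> simp
  have e4 : ∑ v ∈ UU G u, ell G x u v = D G (UU G u) (WW G u) (fun _ _ => 1) -
      D G (UU G u) (WW G u) (fun _ w => x w) := by
    simp only [D, ell, ← sum_sub_distrib]
    refine sum_congr rfl fun v _ => sum_congr rfl fun w _ => ?_
    split_ifs <;> simp
  have := h.low
  linarith

lemma Eig.degU (h : Eig G k x lam u) {S : Finset V} (hS : S ⊆ UU G u) :
    D G S S (fun v w => min (x v) (x w)) ≤ 4 * k * ∑ v ∈ S, x v := by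
  have := deg (G := G) x (fun _ => 2 * k) h.nn S (fun T hT hne => by
    obtain ⟨v, Q, h1, h2, h3, h4⟩ := longest (G := G) T hne
    have := h.np u _ h1 h2 (fun z hz => mem_U.mp (hS (hT (h3 z hz))))
    refine ⟨v, h3 v (by simp), ?_⟩
    simp at this
    exact_mod_cast (by omega : #(T.filter (G.Adj v)) ≤ 2 * k))
  rw [← mul_sum] at this
  linarith

lemma Eig.cst_min (h : Eig G k x lam u) (v w : V) : x v + x w - 1 ≤ min (x v) (x w) :=
  le_min (by linarith [h.le w]) (by linarith [h.le v])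

lemma Eig.common (h : Eig G k x lam u) (Y : Finset V) :
    lam - ∑ y ∈ Y, miss G x u y ≤ ∑ v ∈ (UU G u).filter (fun v => ∀ y ∈ Y, G.Adj y v), x v := by
  rw [h.lamU, sum_filter]
  simp only [miss]
  rw [sum_comm, ← sum_sub_distrib]
  refine sum_le_sum fun v _ => ?_
  have nn : ∀ y ∈ Y, 0 ≤ (if G.Adj y v then 0 else x v) := fun y _ => by
    split_ifs; exacts [le_rfl, h.nn v]
  split_ifs with e
  · linarith [sum_nonneg nn]
  · push Not at e
    obtain ⟨y, hy, e⟩ := e
    have := single_le_sum nn hy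
    rw [if_neg e] at this
    linarith

lemma Eig.km (h : Eig G k x lam u) (c : V) (Y : Finset V) (hY : #Y = k)
    (h1 : ∀ y ∈ Y, G.Adj c y) (hm : miss G x u c + ∑ y ∈ Y, miss G x u y + (k + 1) ≤ lam) :
    False := by
  have hc : c ∉ Y := fun e => (h1 c e).ne rfl
  have := h.common (insert c Y)
  rw [sum_insert hc] at this
  have c2 := h.wt_le ((UU G u).filter (fun v => ∀ y ∈ insert c Y, G.Adj y v))
  refine h.np.kk c Y ((UU G u).filter (fun v => ∀ y ∈ insert c Y, G.Adj y v)) hY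
    (by exact_mod_cast (by linarith : (k : ℝ) + 1 ≤
      #((UU G u).filter (fun v => ∀ y ∈ insert c Y, G.Adj y v)))) h1
    (fun b hb => (mem_filter.mp hb).2 c (mem_insert_self _ _))
    (fun y hy b hb => (mem_filter.mp hb).2 y (mem_insert_of_mem hy))

lemma Eig.missW (h : Eig G k x lam u) {w : V} (hw : w ∈ WW G u) :
    miss G x u w ≤ lam * (1 - x w) + dn G (WW G u) w ∧
      lam * x w ≤ dn G (UU G u) w + dn G (WW G u) w := by
  have e1 := h.eigW hw
  have e2 := h.miss_eq w
  have e3 := h.wn_le (WW G u) w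
  have e4 := h.wn_le (UU G u) w
  constructor <;> linarith

lemma Eig.Lam (h : Eig G k x lam u) : ∑ v ∈ UU G u, ell G x u v =
    ∑ w ∈ WW G u, dn G (UU G u) w * (1 - x w) := by
  rw [← D_dn, D_comm]; rfl

lemma Eig.heavy (h : Eig G k x lam u) (v : V) : wn G x (WW G u) v ≤
    ell G x u v + #((WW G u).filter fun w => 1 / 2 ≤ x w) := by
  rw [card_eq_sum_ones, sum_filter, wn, ell]
  push_cast
  rw [← sum_add_distrib]
  refine sum_le_sum fun w _ => ?_
  have := h.le w
  have := h.nn w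
  split_ifs <;> linarith

/-- few vertices of `U` have `k` neighbours in a bounded subset of `U` -/
lemma Eig.fewk (h : Eig G k x lam u) {Z S : Finset V} (hZ : Z ⊆ UU G u) (hS : S ⊆ UU G u) :
    #(S.filter fun v => k ≤ #(Z.filter (G.Adj v))) ≤ k * 2 ^ #Z := by
  rw [← card_powerset]
  refine card_le_mul_card_image_of_maps_to (f := fun v => Z.filter (G.Adj v))
    (fun v _ => mem_powerset.mpr (filter_subset _ _)) k fun J _ => ?_
  by_contra c
  push Not at c
  obtain ⟨v, hv⟩ := card_pos.mp (lt_of_le_of_lt (Nat.zero_le _) c)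
  simp only [mem_filter] at hv
  obtain ⟨Y, hY, hc⟩ := exists_subset_card_eq hv.1.2
  refine h.np.kk u Y _ hc c (fun y hy => mem_U.mp (hZ (mem_filter.mp (hY hy)).1))
    (fun b hb => mem_U.mp (hS (mem_filter.mp (mem_filter.mp hb).1).1)) fun y hy b hb => ?_
  have := hY hy
  rw [hv.2, ← (mem_filter.mp hb).2] at this
  exact (mem_filter.mp this).2.symm

end Pool.Agent.H.MP_0daf67_co
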