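import Mathlib
import Pool.Agent.H.MP_0daf67_co.B

set_option autoImplicit false

namespace Pool.Agent.H.MP_0daf67_co

open Finset

variable {V : Type} [Fintype V] [DecidableEq V] {G : SimpleGraph V} [DecidableRel G.Adj]
variable {k : ℕ} {x : V → ℝ} {lam : ℝ} {u : V}

lemma Eig.exc (h : Eig G k x lam u) {A Z : Finset V} (hA : A ⊆ UU G u) (hZ : Z ⊆ UU G u)
    (hd : ∀ v ∈ A, v ∉ Z) (J : Finset V) : ∃ X : Finset V, #X ≤ 3 * k + 1 ∧
      ∀ v Q, Z.filter (G.Adj v) = J → J.Nonempty → (v :: Q).Nodup → (v :: Q).IsChain G.Adj →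
        (∀ z ∈ v :: Q, z ∈ A ∧ z ∉ X) → Q.length + #J + 1 ≤ k := by
  set C := A.filter (fun v => Z.filter (G.Adj v) = J) with hC
  by_cases c1 : #C ≤ 3 * k + 1
  · refine ⟨C, c1, fun v Q h1 _ _ _ h5 => ?_⟩
    exact absurd (mem_filter.mpr ⟨(h5 v (by simp)).1, h1⟩) (h5 v (by simp)).2
  have adj : ∀ y ∈ J, ∀ b ∈ C, G.Adj y b ∧ y ∈ Z := by
    intro y hy b hb
    rw [← (mem_filter.mp hb).2] at hy
    exact ⟨(mem_filter.mp hy).2.symm, (mem_filter.mp hy).1⟩
  obtain ⟨b0, hb0⟩ : C.Nonempty := card_pos.mp (by omega)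
  have jk : #J < k := by
    by_contra c
    obtain ⟨Y, hY, hc⟩ := exists_subset_card_eq (not_lt.mp c)
    exact h.np.kk u Y C hc (by omega) (fun y hy => mem_U.mp (hZ (adj y (hY hy) b0 hb0).2))
      (fun b hb => mem_U.mp (hA (mem_filter.mp hb).1)) (fun y hy b hb => (adj y (hY hy) b hb).1)
  have cut : ∀ (X : Finset V) v Q, (v :: Q).Nodup → (v :: Q).IsChain G.Adj →
      (∀ z ∈ v :: Q, z ∈ A ∧ z ∉ X) → ¬ Q.length + #J + 1 ≤ k → ∃ Q', (v :: Q').Nodup ∧
      (v :: Q').IsChain G.Adj ∧ (∀ z ∈ v :: Q', z ∈ A ∧ z ∉ X) ∧ Q'.length + #J = k := by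
    intro X v Q h3 h4 h5 h6
    have e : v :: Q.take (k - #J) = (v :: Q).take (k - #J + 1) := rfl
    refine ⟨Q.take (k - #J), ?_, ?_, ?_, ?_⟩
    · rw [e]; exact h3.sublist (List.take_sublist _ _)
    · rw [e]; exact h4.take _
    · rw [e]; exact fun z hz => h5 z (List.mem_of_mem_take hz)
    · rw [List.length_take]; omega
  by_cases c2 : ∃ a ∈ C, ∃ Q, (a :: Q).Nodup ∧ (a :: Q).IsChain G.Adj ∧ (∀ z ∈ a :: Q, z ∈ A) ∧
      Q.length + #J = k
  · obtain ⟨a, ha, Q, q1, q2, q3, q4⟩ := c2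
    have l1 := List.toFinset_card_le (a :: Q)
    simp only [List.length_cons] at l1
    refine ⟨(a :: Q).toFinset, by omega, fun v R h1 h2 h3 h4 h5 => ?_⟩
    by_contra c
    obtain ⟨Q', r1, r2, r3, r4⟩ := cut _ v R h3 h4 h5 c
    have l2 := List.toFinset_card_le (v :: Q')
    simp only [List.length_cons] at l2
    have hv : v ∈ C := mem_filter.mpr ⟨(h5 v (by simp)).1, h1⟩
    have l3 := le_card_sdiff ((a :: Q).toFinset ∪ (v :: Q').toFinset) C
    have l4 := card_union_le (a :: Q).toFinset (v :: Q').toFinset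
    have := h.np.two u J (C \ ((a :: Q).toFinset ∪ (v :: Q').toFinset)) h2 a v Q Q' q1 r1 q2 r2
      (fun z hz e => (r3 z e).2 (List.mem_toFinset.mpr hz))
      (fun z hz => ⟨fun e => hd z (q3 z hz) (adj z e b0 hb0).2,
        fun e => (mem_sdiff.mp e).2 (mem_union_left _ (List.mem_toFinset.mpr hz)),
        mem_U.mp (hA (q3 z hz))⟩)
      (fun z hz => ⟨fun e => hd z (r3 z hz).1 (adj z e b0 hb0).2,
        fun e => (mem_sdiff.mp e).2 (mem_union_right _ (List.mem_toFinset.mpr hz)),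
        mem_U.mp (hA (r3 z hz).1)⟩) (by omega)
      (fun y hy => ⟨mem_U.mp (hZ (adj y hy b0 hb0).2), (adj y hy a ha).1, (adj y hy v hv).1⟩)
      (fun b hb => mem_U.mp (hA (mem_filter.mp (mem_sdiff.mp hb).1).1))
      (fun y hy b hb => (adj y hy b (mem_sdiff.mp hb).1).1)
    omega
  · refine ⟨∅, by simp, fun v R h1 _ h3 h4 h5 => ?_⟩
    by_contra c
    obtain ⟨Q', r1, r2, r3, r4⟩ := cut _ v R h3 h4 h5 c
    exact c2 ⟨v, mem_filter.mpr ⟨(h5 v (by simp)).1, h1⟩, Q', r1, r2, fun z hz => (r3 z hz).1, r4⟩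

lemma Eig.partI (h : Eig G k x lam u) {A Z : Finset V} (hA : A ⊆ UU G u) (hZ : Z ⊆ UU G u)
    (hd : ∀ v ∈ A, v ∉ Z) (hdeg : ∀ a ∈ A, #(A.filter (G.Adj a)) + 1 ≤ k) :
    2 * ∑ v ∈ A, dn G Z v * x v + D G A A (fun v w => min (x v) (x w)) ≤
      2 * (k - 1) * lam + 2 ^ #Z * (3 * k + 1) * (2 * #Z + 2 * k) := by
  choose XJ hX1 hX2 using h.exc hA hZ hd
  set X := A ∩ (powerset Z).biUnion XJ with hX
  have cX : #X ≤ 2 ^ #Z * (3 * k + 1) := by
    refine (card_le_card inter_subset_right).trans ?_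
    rw [← card_powerset]
    exact card_biUnion_le_card_mul _ _ _ fun J _ => hX1 J
  have cX' : (#X : ℝ) ≤ 2 ^ #Z * (3 * k + 1) := by exact_mod_cast cX
  have sub : X ⊆ A := inter_subset_left
  have d1 := deg (G := G) x (fun v => k - 1 - dn G Z v) h.nn (A \ X) (fun T hT hne => by
    obtain ⟨v, Q, h1, h2, h3, h4⟩ := longest (G := G) T hne
    refine ⟨v, h3 v (by simp), ?_⟩
    rw [dn_eq]
    rcases (Z.filter (G.Adj v)).eq_empty_or_nonempty with e | e
    · have a1 := hdeg v (mem_sdiff.mp (hT (h3 v (by simp)))).1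
      have a2 := card_le_card (filter_subset_filter (G.Adj v) (hT.trans sdiff_subset))
      rw [e]
      have : ((#(T.filter (G.Adj v)) + 1 : ℕ) : ℝ) ≤ k := by exact_mod_cast (by omega)
      push_cast at this
      simp; linarith
    · have := hX2 _ v Q rfl e h1 h2 (fun z hz => by
        have := mem_sdiff.mp (hT (h3 z hz))
        exact ⟨this.1, fun c => this.2 (mem_inter.mpr ⟨this.1, mem_biUnion.mpr
          ⟨_, mem_powerset.mpr (filter_subset _ _), c⟩⟩)⟩)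
      have : ((#(T.filter (G.Adj v)) + #(Z.filter (G.Adj v)) + 1 : ℕ) : ℝ) ≤ k := by
        exact_mod_cast (by omega)
      push_cast at this
      linarith)
  have d2 := D_split (G := G) sub (fun v w => min (x v) (x w)) (fun a c => min_comm _ _)
  have d3 := D_right (G := G) sub X (fun v w => min (x v) (x w))
  have d4 : 0 ≤ D G X X (fun v w => min (x v) (x w)) :=
    D_nonneg fun v w => le_min (h.nn v) (h.nn w)
  have d5 : D G X A (fun v w => min (x v) (x w)) ≤ #X * k := by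
    calc _ ≤ D G X A (fun _ _ => 1) := D_mono fun v _ _ _ _ => (min_le_left _ _).trans (h.le v)
      _ = ∑ v ∈ X, dn G A v * 1 := D_dn _ _ _
      _ ≤ _ := by
        rw [← nsmul_eq_mul]
        refine sum_le_card_nsmul _ _ _ fun v hv => ?_
        rw [dn_eq, mul_one]
        exact_mod_cast (by have := hdeg v (sub hv); omega)
  have d6 : ∑ v ∈ X, dn G Z v * x v ≤ #X * #Z := by
    rw [← nsmul_eq_mul]
    refine sum_le_card_nsmul _ _ _ fun v _ => ?_
    nlinarith [dn_le (G := G) Z v, dn_nonneg (G := G) Z v, h.le v, h.nn v]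
  have d7 : ∑ v ∈ A \ X, dn G Z v * x v + ∑ v ∈ A \ X, (k - 1 - dn G Z v) * x v =
      (k - 1) * ∑ v ∈ A \ X, x v := by
    rw [← sum_add_distrib, mul_sum]
    exact sum_congr rfl fun v _ => by ring
  have d8 := h.wtU (sdiff_subset.trans hA : A \ X ⊆ _)
  have d9 := mul_le_mul_of_nonneg_left d8 (by linarith [h.K2] : (0 : ℝ) ≤ k - 1)
  have d10 := mul_le_mul_of_nonneg_right cX' (by positivity : (0 : ℝ) ≤ 2 * #Z + 2 * k)
  rw [← sum_sdiff sub]
  nlinarith

def NB (k : ℕ) : ℕ := 1000 * (32 * (k + 1) * (k + 2)) ^ 2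

noncomputable def LB (k : ℕ) : ℝ :=
  200 * (2 ^ NB k * (3 * k + 1) * (2 * NB k + 2 * k) +
    (2 * (k * (32 * (k + 2)) + k + 1) * (32 * (k + 1) * (k + 2)) +
      4 * k * (32 * (k + 1) * (k + 2)) + k ^ 2)) +
    16 * (NB k * k) + 64 * (k + 2) + k ^ 2

noncomputable def loss (G : SimpleGraph V) [DecidableRel G.Adj] (x : V → ℝ) (u w : V) : ℝ :=
  dn G (UU G u) w * (1 - x w) + dn G (WW G u) w / 2

lemma Eig.loss_nonneg (h : Eig G k x lam u) (w : V) : 0 ≤ loss G x u w :=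
  add_nonneg (mul_nonneg (dn_nonneg _ _) (by linarith [h.le w]))
    (by linarith [dn_nonneg (G := G) (WW G u) w])

lemma Eig.star' (h : Eig G k x lam u) : 2 * (k - 1) * lam - k ^ 2 ≤
    D G (UU G u) (UU G u) (fun v w => x v + x w - 1) - 2 * ∑ w ∈ WW G u, loss G x u w := by
  have := h.star
  rw [h.Lam, D_dn (G := G) (WW G u) (WW G u) (fun _ => 1)] at this
  simp only [loss, sum_add_distrib, ← sum_div, mul_one] at this ⊢
  nlinarith [h.K2]

lemma Eig.good (h : Eig G k x lam u) (l3 : 64 * ((k : ℝ) + 2) ≤ lam) (l4 : (k : ℝ) ^ 2 ≤ lam)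
    (hB : lam / 4 ≤ #((WW G u).filter fun w => 1 / 2 ≤ x w)) : ∃ WS ⊆ WW G u, lam / 8 ≤ #WS ∧
      ∀ w ∈ WS, miss G x u w ≤ 4 * loss G x u w ∧ miss G x u w ≤ 32 * (k + 2) := by
  have K2 := h.K2
  have L1 : ∑ w ∈ WW G u, loss G x u w ≤ (k + 2) * lam := by
    have a1 := h.degU (subset_refl _)
    rw [← h.lamU] at a1
    have a2 := D_mono (G := G) (S := UU G u) (T := UU G u) (fun v _ w _ _ => h.cst_min v w)
    have := h.star'
    linarith
  refine ⟨(WW G u).filter (fun w => 1 / 2 ≤ x w ∧ loss G x u w ≤ 8 * (k + 2)), filter_subset _ _,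
    ?_, ?_⟩
  · set WS := (WW G u).filter (fun w => 1 / 2 ≤ x w ∧ loss G x u w ≤ 8 * (k + 2)) with hWS
    set bad := (WW G u).filter (fun w => 8 * (k + 2) < loss G x u w) with hbad
    have a1 : #(bad) * (8 * ((k : ℝ) + 2)) ≤ ∑ w ∈ bad, loss G x u w := by
      rw [← nsmul_eq_mul]
      exact card_nsmul_le_sum _ _ _ fun w hw => (mem_filter.mp hw).2.le
    have a2 : ∑ w ∈ bad, loss G x u w ≤ ∑ w ∈ WW G u, loss G x u w :=
      sum_le_sum_of_subset_of_nonneg (filter_subset _ _) fun w _ _ => h.loss_nonneg w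
    have a3 : (#(bad) : ℝ) ≤ lam / 8 :=
      le_of_mul_le_mul_right (a := 8 * ((k : ℝ) + 2)) (by linarith) (by linarith)
    have a4 : #((WW G u).filter fun w => 1 / 2 ≤ x w) ≤ #WS + #(bad) := by
      refine (card_le_card fun w hw => ?_).trans (card_union_le _ _)
      rw [mem_filter] at hw
      rcases le_or_gt (loss G x u w) (8 * (k + 2)) with c | c
      · exact mem_union_left _ (mem_filter.mpr ⟨hw.1, hw.2, c⟩)
      · exact mem_union_right _ (mem_filter.mpr ⟨hw.1, c⟩)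
    have : (#((WW G u).filter fun w => 1 / 2 ≤ x w) : ℝ) ≤ #WS + #(bad) := by exact_mod_cast a4
    linarith
  · intro w hw
    obtain ⟨w1, w2, w3⟩ := mem_filter.mp hw
    obtain ⟨a1, a2⟩ := h.missW w1
    have b1 := dn_nonneg (G := G) (UU G u) w
    have b2 := dn_nonneg (G := G) (WW G u) w
    have b3 : 0 ≤ 1 - x w := by linarith [h.le w]
    simp only [loss] at w3 ⊢
    have b4 := mul_nonneg b1 b3
    have b7 := mul_le_mul_of_nonneg_left w2 (by linarith : 0 ≤ lam)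
    have b5 : lam / 4 ≤ dn G (UU G u) w := by linarith
    have b6 := mul_le_mul_of_nonneg_right b5 b3
    constructor <;> linarith

lemma Eig.lossB (h : Eig G k x lam u) {WS Z : Finset V} (sW : WS ⊆ WW G u) (sZ : Z ⊆ UU G u)
    (cW : lam / 8 ≤ #WS)
    (mW : ∀ w ∈ WS, miss G x u w ≤ 4 * loss G x u w ∧ miss G x u w ≤ 32 * (k + 2))
    (hZ : ∀ y ∈ Z, k * (32 * (k + 2)) + k + 1 ≤ wn G x (UU G u) y)
    (cZ : 16 * (#Z * k) ≤ lam) : lam * ∑ y ∈ Z, x y ≤ 64 * ∑ w ∈ WW G u, loss G x u w := by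
  set B := WS.filter (fun w => ∃ y ∈ Z, G.Adj y w) with hB'
  have a1 : #B ≤ #Z * k := by
    refine (card_le_card (t := Z.biUnion fun y => WS.filter (G.Adj y)) fun w hw => ?_).trans
      (card_biUnion_le_card_mul _ _ _ fun y hy => ?_)
    · obtain ⟨w1, y, y1, y2⟩ := mem_filter.mp hw
      exact mem_biUnion.mpr ⟨y, y1, mem_filter.mpr ⟨w1, y2⟩⟩
    · by_contra c
      obtain ⟨T, hT, cT⟩ := exists_subset_card_eq (s := WS.filter (G.Adj y)) (n := k) (by omega)
      refine h.km y T cT (fun z hz => (mem_filter.mp (hT hz)).2) ?_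
      have b1 : ∑ z ∈ T, miss G x u z ≤ #T * (32 * ((k : ℝ) + 2)) := by
        rw [← nsmul_eq_mul]
        exact sum_le_card_nsmul _ _ _ fun w hw => (mW w (mem_filter.mp (hT hw)).1).2
      rw [cT] at b1
      have b2 := h.miss_eq y
      have b3 := hZ y hy
      linarith
  have a2 : (#B : ℝ) ≤ #Z * k := by exact_mod_cast a1
  have a3 : (#(WS \ B) : ℝ) + #B = #WS := by
    exact_mod_cast card_sdiff_add_card_eq_card (filter_subset _ _)
  have a4 : lam / 16 ≤ #(WS \ B) := by linarith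
  have a5 : #(WS \ B) * ((∑ y ∈ Z, x y) / 4) ≤ ∑ w ∈ WS \ B, loss G x u w := by
    rw [← nsmul_eq_mul]
    refine card_nsmul_le_sum _ _ _ fun w hw => ?_
    obtain ⟨w1, w2⟩ := mem_sdiff.mp hw
    have b1 : ∑ y ∈ Z, x y ≤ miss G x u w := by
      calc _ = ∑ y ∈ Z, if G.Adj w y then 0 else x y := sum_congr rfl fun y hy => by
            rw [if_neg fun e => w2 (mem_filter.mpr ⟨w1, y, hy, e.symm⟩)]
        _ ≤ _ := sum_le_sum_of_subset_of_nonneg sZ fun v _ _ => by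
            split_ifs; exacts [le_rfl, h.nn v]
    linarith [(mW w w1).1]
  have a6 : ∑ w ∈ WS \ B, loss G x u w ≤ ∑ w ∈ WW G u, loss G x u w :=
    sum_le_sum_of_subset_of_nonneg (sdiff_subset.trans sW) fun w _ _ => h.loss_nonneg w
  have a7 : 0 ≤ (∑ y ∈ Z, x y) / 4 := by linarith [sum_nonneg fun y (_ : y ∈ Z) => h.nn y]
  have a8 := mul_le_mul_of_nonneg_right a4 a7
  linarith

lemma Eig.costB (h : Eig G k x lam u) {A Y : Finset V} (sA : A ⊆ UU G u) {g c : ℝ} (gp : 0 ≤ g)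
    (cp : 0 ≤ c) (lp : 0 ≤ lam) : D G A Y (fun v w => x v + x w - 1) ≤
      ∑ y ∈ Y.filter (fun y => g ≤ x y ∧ c ≤ wn G x (UU G u) y), wn G x A y +
        (lam * g + c) * ∑ y ∈ Y, x y := by
  rw [D_comm, sum_filter, mul_sum, ← sum_add_distrib]
  refine sum_le_sum fun y _ => ?_
  have b1 : (∑ v ∈ A, if G.Adj y v then x v + x y - 1 else 0) ≤ wn G x A y * x y := by
    rw [wn, sum_mul]
    refine sum_le_sum fun v _ => ?_
    split_ifs
    · nlinarith [h.le v, h.le y]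
    · simp
  refine b1.trans ?_
  have b2 := h.wn_nonneg A y
  have b3 := h.wn_lam A y
  have b4 := h.wn_mono sA y
  have b5 := h.nn y
  have b6 := mul_le_mul_of_nonneg_left (h.le y) b2
  have b7 : 0 ≤ c * x y := by positivity
  have b8 : 0 ≤ lam * g * x y := by positivity
  split_ifs with e
  · linarith
  · rw [not_and_or] at e
    rcases e with e | e
    · have a := mul_le_mul_of_nonneg_left (not_le.mp e).le lp
      have := mul_le_mul_of_nonneg_right (b3.trans a) b5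
      linarith
    · have := mul_le_mul_of_nonneg_right (b4.trans (not_le.mp e).le) b5
      linarith

theorem Eig.caseB (h : Eig G k x lam u) (hl : LB k ≤ lam) :
    (#((WW G u).filter fun w => 1 / 2 ≤ x w) : ℝ) < lam / 4 := by
  by_contra hB
  push Not at hB
  have K2 := h.K2
  obtain ⟨c3, hc3⟩ : ∃ c : ℝ, c = 32 * (k + 1) * (k + 2) := ⟨_, rfl⟩
  have c3p : 0 < c3 := by rw [hc3]; positivity
  have hNB : (NB k : ℝ) = 1000 * c3 ^ 2 := by simp [NB, hc3]
  obtain ⟨Xb, hXb⟩ : ∃ c : ℝ, c = 2 ^ NB k * (3 * k + 1) * (2 * NB k + 2 * k) := ⟨_, rfl⟩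
  obtain ⟨c4, hc4⟩ : ∃ c : ℝ, c = k * (32 * (k + 2)) + k + 1 := ⟨_, rfl⟩
  obtain ⟨E, hE⟩ : ∃ c : ℝ, c = 2 * c4 * c3 + 4 * k * c3 + k ^ 2 := ⟨_, rfl⟩
  have c4p : 0 ≤ c4 := by rw [hc4]; positivity
  have Xp : 0 ≤ Xb := by rw [hXb]; positivity
  have Ep : 0 < E := by rw [hE]; positivity
  have Np : 0 ≤ (NB k : ℝ) * k := by positivity
  have Kp : 0 ≤ (k : ℝ) ^ 2 := by positivity
  have hl' : 200 * (Xb + E) + 16 * (NB k * k) + 64 * (k + 2) + k ^ 2 ≤ lam := by
    rw [hXb, hE, hc4, hc3]; exact hl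
  have lp : 0 < lam := by linarith
  obtain ⟨WS, sW, cWS, mW⟩ := h.good (by linarith) (by linarith) hB
  obtain ⟨W0, sW0, cW0⟩ := exists_subset_card_eq (s := WS) (n := k + 1) (by
    exact_mod_cast (by push_cast; linarith : ((k + 1 : ℕ) : ℝ) ≤ #WS))
  obtain ⟨A, hA⟩ : ∃ A, A = (UU G u).filter (fun v => ∀ y ∈ W0, G.Adj y v) := ⟨_, rfl⟩
  have sA : A ⊆ UU G u := by rw [hA]; exact filter_subset _ _
  have wY : ∑ y ∈ UU G u \ A, x y ≤ c3 := by
    have a1 := h.common W0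
    have a2 : ∑ y ∈ W0, miss G x u y ≤ #W0 * (32 * ((k : ℝ) + 2)) := by
      rw [← nsmul_eq_mul]
      exact sum_le_card_nsmul _ _ _ fun w hw => (mW w (sW0 hw)).2
    rw [cW0] at a2
    push_cast at a2
    have a3 := sum_sdiff (f := x) sA
    rw [← h.lamU] at a3
    rw [← hA] at a1
    rw [hc3]; linarith
  have hdeg : ∀ a ∈ A, #(A.filter (G.Adj a)) + 1 ≤ k := by
    intro a ha
    by_contra c
    obtain ⟨T, hT, cT⟩ := exists_subset_card_eq (s := A.filter (G.Adj a)) (n := k) (by omega)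
    have hA' : ∀ v ∈ A, ∀ y ∈ W0, G.Adj y v := fun v hv => by
      rw [hA] at hv; exact (mem_filter.mp hv).2
    exact h.np.kk a T W0 cT cW0.ge (fun y hy => (mem_filter.mp (hT hy)).2)
      (fun b hb => (hA' a ha b hb).symm)
      (fun y hy b hb => (hA' y (mem_filter.mp (hT hy)).1 b hb).symm)
  obtain ⟨g, hg⟩ : ∃ g : ℝ, g = 1 / (1000 * c3) := ⟨_, rfl⟩
  have gp : 0 < g := by rw [hg]; positivity
  have gc : g * c3 = 1 / 1000 := by rw [hg]; field_simp
  have C1 := h.costB (Y := UU G u \ A) sA gp.le c4p lp.le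
  set Z := (UU G u \ A).filter (fun y => g ≤ x y ∧ c4 ≤ wn G x (UU G u) y) with hZ
  have sZ : Z ⊆ UU G u \ A := filter_subset _ _
  have sZU : Z ⊆ UU G u := sZ.trans sdiff_subset
  have cZ : (#Z : ℝ) ≤ NB k := by
    have a1 : #Z * g ≤ ∑ y ∈ Z, x y := by
      rw [← nsmul_eq_mul]
      exact card_nsmul_le_sum _ _ _ fun w hw => (mem_filter.mp hw).2.1
    have a2 : ∑ y ∈ Z, x y ≤ ∑ y ∈ UU G u \ A, x y :=
      sum_le_sum_of_subset_of_nonneg sZ fun v _ _ => h.nn v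
    have a3 : #Z * g * (1000 * c3) ≤ c3 * (1000 * c3) :=
      mul_le_mul_of_nonneg_right (by linarith) (by positivity)
    have a4 : #Z * g * (1000 * c3) = #Z := by rw [hg]; field_simp
    rw [hNB]; linarith
  have L2 := h.lossB sW sZU cWS mW (fun y hy => hc4 ▸ (mem_filter.mp hy).2.2)
    (by linarith [mul_le_mul_of_nonneg_right cZ (by linarith : (0 : ℝ) ≤ k)])
  have P1 : ∑ y ∈ Z, wn G x A y = ∑ v ∈ A, dn G Z v * x v := by rw [← D_dn, D_comm]; rfl
  have P2 : ∑ y ∈ Z, wn G x A y ≤ lam * ∑ y ∈ Z, x y := by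
    rw [mul_sum]; exact sum_le_sum fun y _ => h.wn_lam A y
  have a2 := mul_le_mul_of_nonneg_left wY (by positivity : 0 ≤ lam * g + c4)
  have a3 : (lam * g + c4) * c3 = lam / 1000 + c4 * c3 := by
    rw [add_mul, mul_assoc, gc]; ring
  have C2 := D_split (G := G) sA (fun v w => x v + x w - 1) (fun a c => by ring)
  have C3 : D G (UU G u \ A) (UU G u \ A) (fun v w => x v + x w - 1) ≤ 4 * k * c3 := by
    have a1 := h.degU (sdiff_subset : UU G u \ A ⊆ _)
    have a2 := D_mono (G := G) (S := UU G u \ A) (T := UU G u \ A) (fun v _ w _ _ => h.cst_min v w)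
    have := mul_le_mul_of_nonneg_left wY (by positivity : (0 : ℝ) ≤ 4 * k)
    linarith
  have C4 := D_mono (G := G) (S := A) (T := A) (fun v _ w _ _ => h.cst_min v w)
  have C5 : D G A A (fun v w => min (x v) (x w)) ≤ (k - 1) * lam := by
    calc _ ≤ D G A A (fun v _ => x v) := D_mono fun _ _ _ _ _ => min_le_left _ _
      _ = ∑ v ∈ A, dn G A v * x v := D_dn _ _ _
      _ ≤ ∑ v ∈ A, (k - 1) * x v := sum_le_sum fun v hv => by
          refine mul_le_mul_of_nonneg_right ?_ (h.nn v)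
          rw [dn_eq]
          have : ((#(A.filter (G.Adj v)) + 1 : ℕ) : ℝ) ≤ k := by exact_mod_cast hdeg v hv
          push_cast at this; linarith
      _ ≤ _ := by
          rw [← mul_sum]; exact mul_le_mul_of_nonneg_left (h.wtU sA) (by linarith)
  have C6 := h.partI sA sZU (fun v hv c => (mem_sdiff.mp (sZ c)).2 hv) hdeg
  have C7 : (2 : ℝ) ^ #Z * (3 * k + 1) * (2 * #Z + 2 * k) ≤ Xb := by
    have : (2 : ℝ) ^ #Z ≤ 2 ^ NB k := pow_le_pow_right₀ (by norm_num) (by exact_mod_cast cZ)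
    rw [hXb]; gcongr
  rw [← P1] at C6
  have st := h.star'
  have nn : 0 ≤ ∑ w ∈ WW G u, loss G x u w := sum_nonneg fun w _ => h.loss_nonneg w
  have kl := mul_le_mul_of_nonneg_right K2 lp.le
  have F1 : lam / 4 ≤ ∑ y ∈ Z, wn G x A y := by linarith
  linarith

end Pool.Agent.H.MP_0daf67_co
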