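import Mathlib
import Pool.Agent.H.MP_0daf67_co.B

set_option autoImplicit false

namespace Pool.Agent.H.MP_0daf67_co

open Finset

variable {V : Type} [Fintype V] [DecidableEq V] {G : SimpleGraph V} [DecidableRel G.Adj]
variable {k : ℕ} {x : V → ℝ} {lam : ℝ} {u : V}

lemma Eig.hubs (h : Eig G k x lam u) (lp : 0 < lam) {g : ℝ} (gp : 0 < g) :
    #((UU G u).filter fun v => g * lam ≤ wn G x (UU G u) v) * g ^ 2 ≤ 4 * k := by
  set Z := (UU G u).filter fun v => g * lam ≤ wn G x (UU G u) v with hZ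
  have a1 : #Z * (g * lam) ≤ D G Z (UU G u) (fun _ w => x w) := by
    rw [← nsmul_eq_mul]
    exact card_nsmul_le_sum _ _ _ fun w hw => (mem_filter.mp hw).2
  have a2 : g * D G Z (UU G u) (fun _ w => x w) ≤ D G Z (UU G u) (fun v w => min (x v) (x w)) := by
    have : g * D G Z (UU G u) (fun _ w => x w) = D G Z (UU G u) (fun _ w => g * x w) := by
      simp only [D, mul_sum, mul_ite, mul_zero]
    rw [this]
    refine D_mono fun v hv w _ _ => ?_
    have b1 : g * lam ≤ lam * x v := (mem_filter.mp hv).2.trans (h.wn_lam _ v)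
    have b2 : g ≤ x v := le_of_mul_le_mul_right (by linarith) lp
    have b3 := mul_le_mul_of_nonneg_left (h.le w) gp.le
    have b4 := mul_le_mul_of_nonneg_right (b2.trans (h.le v)) (h.nn w)
    exact le_min (by linarith) (by linarith)
  have a3 := D_left (G := G) (filter_subset _ _ : Z ⊆ UU G u) (UU G u) (fun v w => min (x v) (x w))
  have a4 : 0 ≤ D G (UU G u \ Z) (UU G u) (fun v w => min (x v) (x w)) :=
    D_nonneg fun v w => le_min (h.nn v) (h.nn w)
  have a5 := h.degU (subset_refl _)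
  rw [← h.lamU] at a5
  have a6 := mul_le_mul_of_nonneg_left a1 gp.le
  exact le_of_mul_le_mul_right (by linarith) lp

/-- the main inequality of case A -/
lemma Eig.ineqA (h : Eig G k x lam u) {Z H X : Finset V} (sZ : Z ⊆ UU G u)
    (hH : ∀ v, v ∈ H ↔ v ∈ UU G u \ Z ∧ 1 / 2 < x v) (sX : X ⊆ UU G u \ Z)
    (hl : ∀ a ∈ H, 2 * wn G x (UU G u) a ≤ ell G x u a) :
    2 * ∑ v ∈ (UU G u \ Z) \ X, (k - 1 - dn G Z v) * x v +
      2 * ∑ z ∈ Z, dn G (UU G u \ Z) z * (1 - x z) + ∑ a ∈ H, ell G x u a +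
      2 * ∑ z ∈ Z, ell G x u z + D G (WW G u) (WW G u) (fun _ _ => 1) ≤
      #Z * #Z + 2 * (#X * #Z) + k ^ 2 := by
  have st := h.star
  have K2 := h.K2
  have sH : H ⊆ UU G u \ Z := fun v hv => ((hH v).mp hv).1
  have c1 := D_split (G := G) sZ (fun v w => x v + x w - 1) (fun a c => by ring)
  have c2 : D G Z Z (fun v w => x v + x w - 1) ≤ #Z * #Z := by
    calc _ ≤ D G Z Z (fun _ _ => 1) := D_mono fun v _ w _ _ => by linarith [h.le v, h.le w]
      _ = ∑ v ∈ Z, dn G Z v * 1 := D_dn _ _ _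
      _ ≤ _ := by
        rw [← nsmul_eq_mul]
        exact sum_le_card_nsmul _ _ _ fun v _ => by rw [mul_one]; exact dn_le _ _
  have c3 : D G Z (UU G u \ Z) (fun v w => x v + x w - 1) =
      ∑ v ∈ UU G u \ Z, dn G Z v * x v - ∑ z ∈ Z, dn G (UU G u \ Z) z * (1 - x z) := by
    rw [← D_dn, ← D_dn, D_comm (UU G u \ Z) Z]
    simp only [D, ← sum_sub_distrib]
    refine sum_congr rfl fun v _ => sum_congr rfl fun w _ => ?_
    split_ifs <;> ring
  have c4 : D G (UU G u \ Z) (UU G u \ Z) (fun v w => x v + x w - 1) ≤ ∑ a ∈ H, ell G x u a := by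
    have e : D G (UU G u \ Z) (UU G u \ Z) (fun v w => if v ∈ H then x w else 0) ≤
        ∑ a ∈ H, wn G x (UU G u) a := by
      rw [D_left sH]
      have e1 : D G ((UU G u \ Z) \ H) (UU G u \ Z) (fun v w => if v ∈ H then x w else 0) = 0 :=
        sum_eq_zero fun v hv => sum_eq_zero fun w _ => by simp [(mem_sdiff.mp hv).2]
      rw [e1, add_zero]
      refine sum_le_sum fun v hv => le_trans (le_of_eq ?_) (h.wn_mono (sdiff_subset (t := Z)) v)
      simp [wn, hv]
    calc _ ≤ D G (UU G u \ Z) (UU G u \ Z)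
          (fun v w => (if v ∈ H then x w else 0) + (if w ∈ H then x v else 0)) := by
          refine D_mono fun v hv w hw _ => ?_
          have := h.le v
          have := h.le w
          have := h.nn v
          have := h.nn w
          have a1 := hH v
          have a2 := hH w
          split_ifs with b1 b2 b2
          · linarith
          · linarith
          · linarith
          · have := not_lt.mp fun c => b1 (a1.mpr ⟨hv, c⟩)
            have := not_lt.mp fun c => b2 (a2.mpr ⟨hw, c⟩)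
            linarith
      _ = D G (UU G u \ Z) (UU G u \ Z) (fun v w => if v ∈ H then x w else 0) +
          D G (UU G u \ Z) (UU G u \ Z) (fun v w => if v ∈ H then x w else 0) := by
          nth_rewrite 3 [D_comm]
          simp only [D, ← sum_add_distrib]
          refine sum_congr rfl fun v _ => sum_congr rfl fun w _ => ?_
          split_ifs <;> simp
      _ ≤ _ := by
          have := sum_le_sum hl
          rw [← mul_sum] at this
          linarith
  have c5 : ∑ z ∈ Z, ell G x u z + ∑ a ∈ H, ell G x u a ≤ ∑ v ∈ UU G u, ell G x u v := by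
    rw [← sum_sdiff sZ]
    linarith [sum_le_sum_of_subset_of_nonneg (f := ell G x u) sH fun v _ _ => h.ell_nonneg v]
  have c6 : ∑ v ∈ X, dn G Z v * x v ≤ #X * #Z := by
    rw [← nsmul_eq_mul]
    refine sum_le_card_nsmul _ _ _ fun v _ => ?_
    nlinarith [dn_le (G := G) Z v, dn_nonneg (G := G) Z v, h.le v, h.nn v]
  have c7 : ∑ v ∈ (UU G u \ Z) \ X, dn G Z v * x v +
      ∑ v ∈ (UU G u \ Z) \ X, (k - 1 - dn G Z v) * x v = (k - 1) * ∑ v ∈ (UU G u \ Z) \ X, x v := by
    rw [← sum_add_distrib, mul_sum]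
    exact sum_congr rfl fun v _ => by ring
  have c8 := h.wtU (sdiff_subset.trans sdiff_subset : (UU G u \ Z) \ X ⊆ _)
  have c9 := mul_le_mul_of_nonneg_left c8 (by linarith : (0 : ℝ) ≤ k - 1)
  have c10 := sum_sdiff (f := fun v => dn G Z v * x v) sX
  nlinarith

def NA (k : ℕ) : ℕ := 40000 * k ^ 5

noncomputable def C6 (k : ℕ) : ℝ := NA k * NA k + 2 * (k * 2 ^ NA k * NA k) + k ^ 2

noncomputable def C7 (k : ℕ) : ℝ := 100 * k ^ 2 * C6 k + 1 + k + 2 * k * C6 k

noncomputable def CS (k : ℕ) : ℝ := C7 k + NA k + k * 2 ^ NA k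

theorem Eig.caseA (h : Eig G k x lam u) (hl : 200 * k ^ 2 * CS k ≤ lam)
    (hA : (#((WW G u).filter fun w => 1 / 2 ≤ x w) : ℝ) < lam / 4) :
    ∃ J ⊆ UU G u, #J + 1 = k ∧
      (∀ v ∈ UU G u \ J, x v ≤ 1 / 2 ∧ wn G x (UU G u) v ≤ 1 / (100 * k ^ 2) * lam) ∧
      ∀ z ∈ J, lam * (1 - x z) ≤ CS k ∧ miss G x u z ≤ CS k := by
  have K2 := h.K2
  have K4 : (4 : ℝ) ≤ k ^ 2 := by nlinarith
  have KK : (k : ℝ) ≤ k ^ 2 := by nlinarith
  obtain ⟨g, hg⟩ : ∃ g : ℝ, g = 1 / (100 * k ^ 2) := ⟨_, rfl⟩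
  have gp : 0 < g := by rw [hg]; positivity
  have gk : g * (100 * k ^ 2) = 1 := by rw [hg]; field_simp
  have g4 : g ≤ 1 / 400 := by nlinarith
  rw [← hg]
  obtain ⟨c6, hc6⟩ : ∃ c, c = C6 k := ⟨_, rfl⟩
  obtain ⟨c7, hc7⟩ : ∃ c, c = C7 k := ⟨_, rfl⟩
  obtain ⟨S, hS⟩ : ∃ c, c = CS k := ⟨_, rfl⟩
  have e7 : c7 = 100 * k ^ 2 * c6 + 1 + k + 2 * k * c6 := by rw [hc7, hc6]; rfl
  have eS : S = c7 + NA k + k * 2 ^ NA k := by rw [hS, hc7]; rfl
  rw [← hS] at hl ⊢
  have p1 : (0 : ℝ) ≤ NA k := by positivity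
  have p2 : (0 : ℝ) ≤ k * 2 ^ NA k := by positivity
  have p6 : 0 ≤ c6 := by rw [hc6, C6]; positivity
  have q1 : 0 ≤ k * c6 := by positivity
  have q2 : 400 * c6 ≤ 100 * k ^ 2 * c6 := by nlinarith
  have q3 : c7 ≤ S := by linarith
  have q4 : 1 ≤ S := by linarith
  have q5 : 800 * S ≤ lam := by nlinarith
  have q6 : 400 * (k * S) ≤ lam := by nlinarith
  have q7 : 2 * S ≤ g * lam := by nlinarith
  have lp : 0 < lam := by linarith
  set Z := (UU G u).filter fun v => g * lam ≤ wn G x (UU G u) v with hZ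
  have sZ : Z ⊆ UU G u := filter_subset _ _
  have cZ : (#Z : ℝ) ≤ NA k := by
    have a1 := mul_le_mul_of_nonneg_right (h.hubs lp gp) (by positivity : (0 : ℝ) ≤ (100 * k ^ 2) ^ 2)
    rw [← hZ, mul_assoc, ← mul_pow, gk] at a1
    rw [NA]; push_cast; linarith
  have nZ : ∀ v ∈ UU G u \ Z, wn G x (UU G u) v < g * lam := fun v hv =>
    not_le.mp fun c => (mem_sdiff.mp hv).2 (mem_filter.mpr ⟨(mem_sdiff.mp hv).1, c⟩)
  set H := (UU G u \ Z).filter fun v => 1 / 2 < x v with hH
  have lH : ∀ a ∈ H, lam / 10 ≤ ell G x u a := by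
    intro a ha
    obtain ⟨a1, a2⟩ := mem_filter.mp ha
    have b1 := h.eigU (mem_sdiff.mp a1).1
    have b2 := h.heavy a
    have b3 := nZ a a1
    have b4 := mul_le_mul_of_nonneg_left a2.le lp.le
    have b5 := mul_le_mul_of_nonneg_right g4 lp.le
    linarith
  set X := (UU G u \ Z).filter fun v => k ≤ #(Z.filter (G.Adj v)) with hX
  have cX : (#X : ℝ) ≤ k * 2 ^ NA k := by
    have a1 : #X ≤ k * 2 ^ #Z := h.fewk sZ sdiff_subset
    have a2 : 2 ^ #Z ≤ 2 ^ NA k := Nat.pow_le_pow_right (by norm_num) (by exact_mod_cast cZ)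
    exact_mod_cast a1.trans (Nat.mul_le_mul_left _ a2)
  have I := h.ineqA (H := H) (X := X) sZ (fun v => mem_filter) (filter_subset _ _) (fun a ha => by
    have := lH a ha
    have := nZ a (mem_filter.mp ha).1
    have b5 := mul_le_mul_of_nonneg_right g4 lp.le
    linarith)
  have I' : (#Z : ℝ) * #Z + 2 * (#X * #Z) + k ^ 2 ≤ c6 := by
    rw [hc6, C6]; gcongr
  have t1 : ∀ v ∈ (UU G u \ Z) \ X, dn G Z v ≤ k - 1 := by
    intro v hv
    have : #(Z.filter (G.Adj v)) + 1 ≤ k :=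
      not_le.mp fun c => (mem_sdiff.mp hv).2 (mem_filter.mpr ⟨(mem_sdiff.mp hv).1, c⟩)
    have : ((#(Z.filter (G.Adj v)) + 1 : ℕ) : ℝ) ≤ k := by exact_mod_cast this
    push_cast at this
    rw [dn_eq]; linarith
  have n1 : 0 ≤ ∑ v ∈ (UU G u \ Z) \ X, (k - 1 - dn G Z v) * x v :=
    sum_nonneg fun v hv => mul_nonneg (by linarith [t1 v hv]) (h.nn v)
  have n2' : ∀ z ∈ Z, 0 ≤ dn G (UU G u \ Z) z * (1 - x z) := fun z _ =>
    mul_nonneg (dn_nonneg _ _) (by linarith [h.le z])
  have n2 := sum_nonneg n2'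
  have n3 : 0 ≤ ∑ a ∈ H, ell G x u a := sum_nonneg fun v _ => h.ell_nonneg v
  have n4 : 0 ≤ ∑ a ∈ Z, ell G x u a := sum_nonneg fun v _ => h.ell_nonneg v
  have n5 : 0 ≤ D G (WW G u) (WW G u) (fun _ _ => 1) := D_nonneg fun _ _ => zero_le_one
  have dW : ∀ w ∈ WW G u, dn G (WW G u) w ≤ c6 := by
    intro w hw
    have := single_le_sum (f := fun v => dn G (WW G u) v * 1)
      (fun v _ => by simpa using dn_nonneg _ v) hw
    rw [← D_dn] at this
    linarith
  have hub : ∀ z ∈ Z, lam * (1 - x z) ≤ 100 * k ^ 2 * c6 ∧ miss G x u z ≤ c7 := by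
    intro z hz
    have a1 := single_le_sum n2' hz
    have a2 := single_le_sum (f := ell G x u) (fun v _ => h.ell_nonneg v) hz
    have a3 : g * lam / 2 ≤ dn G (UU G u \ Z) z := by
      have b1 := sum_sdiff (f := fun w => if G.Adj z w then x w else 0) sZ
      have b2 := h.wn_le (UU G u \ Z) z
      have b3 := (h.wn_le Z z).trans (dn_le Z z)
      have b4 := (mem_filter.mp hz).2
      simp only [wn] at b2 b3 b4
      linarith
    have a4 := mul_le_mul_of_nonneg_right a3 (by linarith [h.le z] : 0 ≤ 1 - x z)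
    have a5 : lam * (1 - x z) ≤ 100 * k ^ 2 * c6 := by
      have b1 : g * (lam * (1 - x z)) ≤ c6 := by linarith
      have b2 := mul_le_mul_of_nonneg_left b1 (by positivity : (0 : ℝ) ≤ 100 * k ^ 2)
      rw [← mul_assoc, mul_comm _ g, gk, one_mul] at b2
      exact b2
    have a6 := h.eigU (sZ hz)
    have a7 := h.miss_eq z
    have a8 := h.heavy z
    set B := (WW G u).filter fun w => G.Adj z w ∧ 2 * k * (1 - x w) ≤ 1 with hB
    have a9 : (#B : ℝ) ≤ k := by
      by_contra c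
      obtain ⟨T, hT, cT⟩ := exists_subset_card_eq (s := B) (n := k)
        (by exact_mod_cast (not_le.mp c).le)
      refine h.km z T cT (fun y hy => (mem_filter.mp (hT hy)).2.1) ?_
      have b1 : ∑ y ∈ T, miss G x u y ≤ #T * (lam / (2 * k) + c6) := by
        rw [← nsmul_eq_mul]
        refine sum_le_card_nsmul _ _ _ fun w hw => ?_
        obtain ⟨w1, -, w3⟩ := mem_filter.mp (hT hw)
        have d1 := (h.missW w1).1
        have d2 := dW w w1
        have d3 : lam * (1 - x w) ≤ lam / (2 * k) := by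
          rw [le_div_iff₀ (by positivity)]
          linarith [mul_le_mul_of_nonneg_left w3 lp.le]
        linarith
      have b2 : (k : ℝ) * (lam / (2 * k) + c6) = lam / 2 + k * c6 := by field_simp
      rw [cT, b2] at b1
      have b3 : (k : ℝ) * c6 ≤ k * S := mul_le_mul_of_nonneg_left (by linarith) (by linarith)
      have b4 : (k : ℝ) * 1 ≤ k * S := mul_le_mul_of_nonneg_left q4 (by linarith)
      linarith
    have a10 : wn G x (WW G u) z ≤ #B + 2 * k * ell G x u z := by
      rw [card_eq_sum_ones, hB, sum_filter, wn, ell, mul_sum]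
      push_cast
      rw [← sum_add_distrib]
      refine sum_le_sum fun w _ => ?_
      have d1 := h.le w
      have d2 := mul_nonneg (by linarith : (0 : ℝ) ≤ 2 * k) (by linarith : 0 ≤ 1 - x w)
      by_cases e : G.Adj z w
      · simp only [e, true_and, if_true]
        split_ifs with e2
        · linarith
        · linarith [not_le.mp e2]
      · simp [e]
    have a11 := mul_le_mul_of_nonneg_left (by linarith : ell G x u z ≤ c6)
      (by linarith : (0 : ℝ) ≤ 2 * k)
    exact ⟨a5, by linarith⟩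
  have z1 : #Z < k := by
    by_contra c
    obtain ⟨T, hT, cT⟩ := exists_subset_card_eq (s := Z) (n := k) (not_lt.mp c)
    refine h.km u T cT (fun y hy => mem_U.mp (sZ (hT hy))) ?_
    have b1 : ∑ y ∈ T, miss G x u y ≤ #T * S := by
      rw [← nsmul_eq_mul]
      exact sum_le_card_nsmul _ _ _ fun w hw => (hub w (hT hw)).2.trans q3
    rw [cT] at b1
    rw [h.miss_u]
    have b4 : (k : ℝ) * 1 ≤ k * S := mul_le_mul_of_nonneg_left q4 (by linarith)
    linarith
  have z2 : #Z + 1 = k := by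
    by_contra c
    have c' : ((#Z + 2 : ℕ) : ℝ) ≤ k := by exact_mod_cast (by omega)
    push_cast at c'
    have b1 : ∑ v ∈ (UU G u \ Z) \ X, x v ≤ ∑ v ∈ (UU G u \ Z) \ X, (k - 1 - dn G Z v) * x v :=
      sum_le_sum fun v _ => le_mul_of_one_le_left (h.nn v) (by linarith [dn_le (G := G) Z v])
    have b2 := sum_sdiff (f := x) sZ
    have b3 := sum_sdiff (f := x) (filter_subset _ _ : X ⊆ UU G u \ Z)
    rw [← h.lamU] at b2
    have b4 := h.wt_le Z
    have b5 := h.wt_le X
    linarith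
  refine ⟨Z, sZ, z2, fun v hv => ⟨?_, (nZ v hv).le⟩, fun z hz => ⟨?_, (hub z hz).2.trans q3⟩⟩
  · by_contra c
    have m : v ∈ H := mem_filter.mpr ⟨hv, not_le.mp c⟩
    have := single_le_sum (f := ell G x u) (fun v _ => h.ell_nonneg v) m
    have := lH v m
    linarith
  · linarith [(hub z hz).1]

end Pool.Agent.H.MP_0daf67_co
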