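import Mathlib
import Pool.Agent.H.MP_0daf67_co.B

set_option autoImplicit false

namespace Pool.Agent.H.MP_0daf67_co

open Finset

variable {V : Type} [Fintype V] [DecidableEq V] {G : SimpleGraph V} [DecidableRel G.Adj]
variable {k : ℕ} {x : V → ℝ} {lam : ℝ} {u : V}

omit [Fintype V] in
lemma dn_self {J : Finset V} {z : V} (hz : z ∈ J) : #(J.filter (G.Adj z)) + 1 ≤ #J ∧
    (#(J.filter (G.Adj z)) + 1 = #J → ∀ y ∈ J.erase z, G.Adj z y) := by
  have s : J.filter (G.Adj z) ⊆ J.erase z := fun y hy =>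
    mem_erase.mpr ⟨(mem_filter.mp hy).2.ne.symm, (mem_filter.mp hy).1⟩
  have c := card_erase_add_one hz
  have := card_le_card s
  refine ⟨by omega, fun e y hy => ?_⟩
  rw [← eq_of_subset_of_card_le s (by omega)] at hy
  exact (mem_filter.mp hy).2

lemma Eig.ineq2 (h : Eig G k x lam u) {J : Finset V} (sJ : J ⊆ UU G u) (cJ : #J + 1 = k)
    (hU : ∀ v ∈ UU G u \ J, x v ≤ 1 / 2) {t : ℝ} (hJ : ∀ z ∈ J, 1 - x z ≤ t) :
    2 * ∑ v ∈ UU G u, ell G x u v + D G (WW G u) (WW G u) (fun _ _ => 1) +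
      ∑ z ∈ J, (k - 2 - dn G J z) ≤ k / 2 + 2 * (k - 1) ^ 2 * t := by
  have st := h.star
  have K2 := h.K2
  have cJ' : (#J : ℝ) = k - 1 := by rw [← cJ]; push_cast; ring
  have c1 := D_split (G := G) sJ (fun v w => x v + x w - 1) (fun a c => by ring)
  have c2 : D G J J (fun v w => x v + x w - 1) ≤ ∑ z ∈ J, dn G J z := by
    calc _ ≤ D G J J (fun _ _ => 1) := D_mono fun v _ w _ _ => by linarith [h.le v, h.le w]
      _ = _ := by rw [D_dn (G := G) J J (fun _ => 1)]; simp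
  have c3 : D G J (UU G u \ J) (fun v w => x v + x w - 1) ≤ (k - 1) * ∑ v ∈ UU G u \ J, x v := by
    rw [D_comm]
    calc _ ≤ D G (UU G u \ J) J (fun v _ => x v) := D_mono fun v _ w _ _ => by linarith [h.le w]
      _ = _ := D_dn _ _ _
      _ ≤ _ := by
        rw [mul_sum]
        exact sum_le_sum fun v _ => mul_le_mul_of_nonneg_right (cJ' ▸ dn_le J v) (h.nn v)
  have c4 : D G (UU G u \ J) (UU G u \ J) (fun v w => x v + x w - 1) ≤ 0 := by
    calc _ ≤ D G (UU G u \ J) (UU G u \ J) (fun _ _ => 0) :=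
          D_mono fun v hv w hw _ => by linarith [hU v hv, hU w hw]
      _ = 0 := by simp [D]
  have c5 := sum_sdiff (f := x) sJ
  rw [← h.lamU] at c5
  have c6 : ∑ z ∈ J, (1 - x z) ≤ #J * t := by
    rw [← nsmul_eq_mul]; exact sum_le_card_nsmul _ _ _ hJ
  rw [sum_sub_distrib, sum_const, nsmul_eq_mul, cJ'] at c6
  rw [sum_sub_distrib, sum_const, nsmul_eq_mul, cJ']
  have c7 := mul_le_mul_of_nonneg_left c6 (by linarith : (0 : ℝ) ≤ 2 * (k - 1))
  have c8 : ∑ v ∈ UU G u \ J, x v = lam - ∑ v ∈ J, x v := by linarith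
  rw [c8] at c3
  linarith

theorem Eig.stage2 (h : Eig G k x lam u) {J : Finset V} (sJ : J ⊆ UU G u) (cJ : #J + 1 = k)
    (hU : ∀ v ∈ UU G u \ J, x v ≤ 1 / 2 ∧ wn G x (UU G u) v ≤ 1 / (100 * k ^ 2) * lam) {C : ℝ}
    (C1 : 1 ≤ C) (hJ : ∀ z ∈ J, lam * (1 - x z) ≤ C ∧ miss G x u z ≤ C)
    (hl : 20000 * k ^ 4 * C ≤ lam) :
    (∀ c ∈ insert u J, 1 - 1 / (50 * k ^ 2) ≤ x c) ∧ ∀ z ∉ insert u J, x z ≤ 1 / (50 * k ^ 2) := by
  have K2 := h.K2
  have cJ' : (#J : ℝ) = k - 1 := by rw [← cJ]; push_cast; ring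
  obtain ⟨η, hη⟩ : ∃ g : ℝ, g = 1 / (100 * k) := ⟨_, rfl⟩
  have ep : 0 < η := by rw [hη]; positivity
  have ek : η * k = 1 / 100 := by rw [hη]; field_simp
  have e1 : η ≤ 1 / 200 := by nlinarith
  have e2 : (1 : ℝ) / (50 * k ^ 2) = 200 * η ^ 2 := by rw [hη]; field_simp; norm_num
  have e3 : (1 : ℝ) / (100 * k ^ 2) = 100 * η ^ 2 := by rw [hη]; field_simp
  rw [e3] at hU
  rw [e2]
  have K4 : (4 : ℝ) ≤ k ^ 2 := by nlinarith
  have l0 : 20000 * (k : ℝ) ^ 4 ≤ lam :=
    le_trans (le_mul_of_one_le_right (by positivity) C1) hl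
  have lp : 0 < lam := lt_of_lt_of_le (by positivity) l0
  have l1 : 2 * (k : ℝ) ^ 2 ≤ η ^ 2 * lam := by
    have a := mul_le_mul_of_nonneg_left l0 (by positivity : 0 ≤ η ^ 2)
    have b : η ^ 2 * (20000 * (k : ℝ) ^ 4) = 20000 * (η * k) ^ 2 * k ^ 2 := by ring
    rw [b, ek] at a; linarith
  have hx : ∀ z ∈ J, 1 - x z ≤ 5000 * η ^ 4 := by
    intro z hz
    have a := mul_le_mul_of_nonneg_left hl (by positivity : 0 ≤ 5000 * η ^ 4)
    have b : 5000 * η ^ 4 * (20000 * (k : ℝ) ^ 4 * C) = 100000000 * (η * k) ^ 4 * C := by ring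
    rw [b, ek] at a
    exact le_of_mul_le_mul_left (a := lam) (by linarith [(hJ z hz).1]) lp
  have e4 : η ^ 2 ≤ η / 200 := by nlinarith
  have e5 : 5000 * η ^ 4 ≤ η ^ 2 := by nlinarith
  have I := h.ineq2 sJ cJ (fun v hv => (hU v hv).1) hx
  have e6 : 2 * ((k : ℝ) - 1) ^ 2 * (5000 * η ^ 4) ≤ 1 / 8 := by
    have a : 2 * ((k : ℝ) - 1) ^ 2 * (5000 * η ^ 4) ≤ 2 * (k : ℝ) ^ 2 * (5000 * η ^ 4) := by
      gcongr <;> linarith
    have b : 2 * (k : ℝ) ^ 2 * (5000 * η ^ 4) = 10000 * (η * k) ^ 2 * η ^ 2 := by ring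
    rw [b, ek] at a; linarith
  have r0 : ∀ z ∈ J, 0 ≤ k - 2 - dn G J z := by
    intro z hz
    have : ((#(J.filter (G.Adj z)) + 1 : ℕ) : ℝ) ≤ #J := by exact_mod_cast (dn_self hz).1
    push_cast at this
    rw [dn_eq]; linarith
  have n1 := sum_nonneg r0
  have n2 : 0 ≤ ∑ v ∈ UU G u, ell G x u v := sum_nonneg fun v _ => h.ell_nonneg v
  have n3 : 0 ≤ D G (WW G u) (WW G u) (fun _ _ => 1) := D_nonneg fun _ _ => zero_le_one
  have hW : ∀ w ∈ WW G u, x w ≤ 200 * η ^ 2 := by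
    intro w hw
    by_contra c
    push Not at c
    obtain ⟨a1, a2⟩ := h.missW hw
    have b1 := dn_nonneg (G := G) (UU G u) w
    have b2 := dn_nonneg (G := G) (WW G u) w
    have b3 : 0 ≤ 1 - x w := by linarith [h.le w]
    have b4 : dn G (UU G u) w * (1 - x w) ≤ ∑ v ∈ UU G u, ell G x u v := by
      rw [h.Lam]
      exact single_le_sum (f := fun w => dn G (UU G u) w * (1 - x w))
        (fun v _ => mul_nonneg (dn_nonneg _ _) (by linarith [h.le v])) hw
    have b5 : 2 * dn G (WW G u) w ≤ D G (WW G u) (WW G u) (fun _ _ => 1) := by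
      have s : {w} ⊆ WW G u := singleton_subset_iff.mpr hw
      have d1 := D_split (G := G) s (fun _ _ => 1) (fun _ _ => rfl)
      have d2 := D_right (G := G) s {w} (fun _ _ => 1)
      have d3 : D G {w} {w} (fun _ _ => 1) = 0 := by simp [D]
      have d4 : D G {w} (WW G u) (fun _ _ => 1) = dn G (WW G u) w := by simp only [D, dn, sum_singleton]
      have d5 : 0 ≤ D G (WW G u \ {w}) (WW G u \ {w}) (fun _ _ => 1) :=
        D_nonneg fun _ _ => zero_le_one
      linarith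
    have b6 := mul_nonneg b1 b3
    have b7 := mul_le_mul_of_nonneg_left c.le lp.le
    have kk : (k : ℝ) ≤ k ^ 2 := by nlinarith
    have b8 : 200 * (k : ℝ) ^ 2 ≤ dn G (UU G u) w := by linarith
    have b9 : 1 - x w ≤ η / 2 := by
      have d1 := mul_le_mul_of_nonneg_right b8 b3
      have d2 : 200 * (k : ℝ) ^ 2 * (η / 2) = k := by
        calc _ = 100 * (η * k) * k := by ring
          _ = _ := by rw [ek]; ring
      exact le_of_mul_le_mul_left (a := 200 * (k : ℝ) ^ 2) (by linarith) (by positivity)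
    have b10 := mul_le_mul_of_nonneg_left b9 lp.le
    have b11 := mul_le_mul_of_nonneg_right e4 lp.le
    have b12 : (1 - η) * lam ≤ dn G (UU G u) w := by linarith
    have b13 := mul_le_mul_of_nonneg_right b12 b3
    have b14 := mul_le_mul_of_nonneg_left a1 (by linarith : 0 ≤ 1 - η)
    have b15 := mul_nonneg ep.le b2
    have b16 : (1 - η) * miss G x u w ≤ dn G (UU G u) w * (1 - x w) + dn G (WW G u) w := by linarith
    have m0 := h.miss_nonneg w
    have b17 : miss G x u w ≤ 2 * k := by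
      have := mul_le_mul_of_nonneg_right e1 m0
      linarith
    have b18 : (k - 1 - dn G J w) * (1 - η) ≤ miss G x u w := by
      calc _ = ∑ z ∈ J, (1 - if G.Adj w z then 1 else 0) * (1 - η) := by
            rw [← sum_mul, sum_sub_distrib, sum_const, nsmul_eq_mul, cJ', mul_one]; rfl
        _ ≤ ∑ z ∈ J, if G.Adj w z then 0 else x z := sum_le_sum fun z hz => by
            have := hx z hz
            split_ifs <;> linarith
        _ ≤ _ := sum_le_sum_of_subset_of_nonneg sJ fun v _ _ => by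
            split_ifs; exacts [le_rfl, h.nn v]
    have b19 : ∀ z ∈ J, G.Adj w z → 1 ≤ k - 2 - dn G J z := by
      intro z hz e
      obtain ⟨d1, d2⟩ := dn_self (G := G) hz
      by_cases d3 : #(J.filter (G.Adj z)) + 1 = #J
      · exfalso
        have w1 : w ∉ J.erase z := fun f => (mem_W.mp hw).2 (mem_U.mp (sJ (mem_of_mem_erase f)))
        have w2 : u ∉ insert w (J.erase z) := by
          rw [mem_insert]
          rintro (f | f)
          · exact (mem_W.mp hw).1 f.symm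
          · exact (mem_U.mp (sJ (mem_of_mem_erase f))).ne rfl
        have w3 := card_erase_add_one hz
        refine h.km z (insert u (insert w (J.erase z))) (by
          rw [card_insert_of_notMem w2, card_insert_of_notMem w1]; omega) (fun y hy => ?_) ?_
        · rcases mem_insert.mp hy with rfl | hy
          · exact (mem_U.mp (sJ hz)).symm
          rcases mem_insert.mp hy with rfl | hy
          · exact e.symm
          · exact d2 d3 y hy
        · rw [sum_insert w2, sum_insert w1, h.miss_u]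
          have f1 : ∑ y ∈ J.erase z, miss G x u y ≤ #(J.erase z) * C := by
            rw [← nsmul_eq_mul]
            exact sum_le_card_nsmul _ _ _ fun y hy => (hJ y (mem_of_mem_erase hy)).2
          have f2 : (#(J.erase z) : ℝ) = k - 2 := by
            have : ((#(J.erase z) + 2 : ℕ) : ℝ) = k := by exact_mod_cast (by omega)
            push_cast at this; linarith
          rw [f2] at f1
          have f3 := (hJ z hz).2
          have f4 : (k : ℝ) * 1 ≤ k * C := mul_le_mul_of_nonneg_left C1 (by linarith)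
          have f5 : (k : ℝ) ≤ k ^ 4 := by nlinarith
          have f6 := mul_le_mul_of_nonneg_right f5 (by linarith : 0 ≤ C)
          linarith
      · have : ((#(J.filter (G.Adj z)) + 2 : ℕ) : ℝ) ≤ #J := by exact_mod_cast (by omega)
        push_cast at this
        rw [dn_eq]; linarith
    have b20 : dn G J w ≤ ∑ z ∈ J, (k - 2 - dn G J z) := sum_le_sum fun z hz => by
      split_ifs with e
      · exact b19 z hz e
      · exact r0 z hz
    have b21 : dn G J w ≤ k - 1 := cJ' ▸ dn_le J w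
    have b22 := dn_nonneg (G := G) J w
    have b23 := mul_le_mul_of_nonneg_left b18 (by linarith : 0 ≤ 1 - η)
    have b24 : 0 ≤ (k - 1 - dn G J w) * η ^ 2 := mul_nonneg (by linarith) (by positivity)
    have b25 : (k - 1 - dn G J w) * η ≤ k * η := mul_le_mul_of_nonneg_right (by linarith) ep.le
    have b26 : 2 * k - 2 - dn G J w - 1 / 25 ≤ k / 2 + 1 / 8 := by linarith
    by_cases e : ∃ z ∈ J, G.Adj w z
    · obtain ⟨z, hz, e⟩ := e
      have := b19 z hz e
      have := dn_nonneg (G := G) J z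
      linarith
    · have : dn G J w = 0 := sum_eq_zero fun z hz => if_neg fun f => e ⟨z, hz, f⟩
      linarith
  refine ⟨fun c hc => ?_, fun z hz => ?_⟩
  · rcases mem_insert.mp hc with rfl | hc
    · rw [h.xu]; linarith [pow_pos ep 2]
    · linarith [hx c hc, pow_pos ep 2]
  · rw [mem_insert, not_or] at hz
    by_cases e : G.Adj u z
    · have m : z ∈ UU G u := mem_U.mpr e
      have a1 := h.eigU m
      have a2 := (hU z (mem_sdiff.mpr ⟨m, hz.2⟩)).2
      have a3 : wn G x (WW G u) z ≤ ell G x u z := sum_le_sum fun w hw => by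
        have := hW w hw
        split_ifs <;> linarith
      have a4 := single_le_sum (f := ell G x u) (fun v _ => h.ell_nonneg v) m
      have kk : (k : ℝ) ≤ k ^ 2 := by nlinarith
      exact le_of_mul_le_mul_left (a := lam) (by linarith) lp
    · exact hW z (mem_W.mpr ⟨hz.1, e⟩)

theorem Eig.stage3 (h : Eig G k x lam u) {K : Finset V} (cK : #K = k) {l : ℕ} (hlk : l ≤ k)
    (hK : ∀ c ∈ K, 1 - 1 / (50 * k ^ 2) ≤ x c) (hO : ∀ z ∉ K, x z ≤ 1 / (50 * k ^ 2))
    (low : D G univ univ (fun _ _ => 1) ≤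
      2 * lam ^ 2 - 2 * (k - 1) * lam + k * (k - 1) + 2 * (l * (k - l) / k))
    (hl : 2 * (k : ℝ) ^ 2 ≤ lam) :
    (∀ c ∈ K, ∀ c' ∈ K.erase c, G.Adj c c') ∧
      D G univ univ (fun _ _ => 1) = k * (k - 1) + 2 * (∑ z ∈ univ \ K, #(K.filter (G.Adj z)) : ℕ) +
        (∑ z ∈ univ \ K, #((univ \ K).filter (G.Adj z)) : ℕ) ∧
      2 * ∑ z ∈ univ \ K, #(K.filter (G.Adj z)) * (k - #(K.filter (G.Adj z))) +
        k * ∑ z ∈ univ \ K, #((univ \ K).filter (G.Adj z)) ≤ 2 * (l * (k - l)) := by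
  have K2 := h.K2
  have cK' : (#K : ℝ) = k := by rw [cK]
  obtain ⟨ε, hε⟩ : ∃ g : ℝ, g = 1 / (50 * k ^ 2) := ⟨_, rfl⟩
  rw [← hε] at hK hO
  have ep : 0 < ε := by rw [hε]; positivity
  have ek : ε * k ^ 2 = 1 / 50 := by rw [hε]; field_simp
  have K4 : (4 : ℝ) ≤ k ^ 2 := by nlinarith
  have e1 : ε ≤ 1 / 200 := by nlinarith
  have lp : 0 < lam := by linarith
  have sK : K ⊆ univ := subset_univ K
  obtain ⟨X, hX⟩ : ∃ X, X = ∑ c ∈ K, x c := ⟨_, rfl⟩
  have X1 : X ≤ k := by rw [hX, ← cK']; exact h.wt_le K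
  have X2 : k * (1 - ε) ≤ X := by
    rw [hX, ← cK', ← nsmul_eq_mul]; exact card_nsmul_le_sum _ _ _ hK
  have X0 : 0 ≤ X := le_trans (mul_nonneg (by linarith) (by linarith)) X2
  have i1 : lam ^ 2 * X = lam * ∑ c ∈ K, dn G K c * x c +
      ∑ z ∈ univ \ K, dn G K z * (wn G x K z + wn G x (univ \ K) z) := by
    have a1 : lam * X = ∑ z, dn G K z * x z := by
      rw [← D_dn, D_comm, hX, mul_sum]
      exact sum_congr rfl fun c _ => h.eig c
    rw [pow_two, mul_assoc, a1, ← sum_sdiff sK, mul_add, add_comm, mul_sum (univ \ K)]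
    congr 1
    refine sum_congr rfl fun z _ => ?_
    rw [mul_left_comm, h.eig, ← sum_sdiff sK, add_comm]; rfl
  have i2 : D G univ univ (fun _ _ => 1) = ∑ c ∈ K, dn G K c + 2 * ∑ z ∈ univ \ K, dn G K z +
      ∑ z ∈ univ \ K, dn G (univ \ K) z := by
    rw [D_split sK _ (fun _ _ => rfl), D_comm K (univ \ K)]; rfl
  have i3 : ∑ z ∈ univ \ K, dn G K z * (wn G x K z + wn G x (univ \ K) z) ≤
      X * ∑ z ∈ univ \ K, dn G K z - (1 - ε) * ∑ z ∈ univ \ K, dn G K z * (k - dn G K z) +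
        k * ε * ∑ z ∈ univ \ K, dn G (univ \ K) z := by
    rw [mul_sum, mul_sum, mul_sum, ← sum_sub_distrib, ← sum_add_distrib]
    refine sum_le_sum fun z _ => ?_
    have a1 : wn G x K z + (k - dn G K z) * (1 - ε) ≤ X := by
      have : (k - dn G K z) * (1 - ε) = ∑ c ∈ K, (1 - if G.Adj z c then 1 else 0) * (1 - ε) := by
        rw [← sum_mul, sum_sub_distrib, sum_const, nsmul_eq_mul, cK', mul_one]; rfl
      rw [this, hX, wn, ← sum_add_distrib]
      refine sum_le_sum fun c hc => ?_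
      have := hK c hc
      split_ifs <;> linarith
    have a2 : wn G x (univ \ K) z ≤ ε * dn G (univ \ K) z := by
      rw [dn, mul_sum]
      refine sum_le_sum fun c hc => ?_
      have := hO c (mem_sdiff.mp hc).2
      split_ifs <;> linarith
    have a3 := dn_nonneg (G := G) K z
    have a4 : dn G K z ≤ k := cK' ▸ dn_le K z
    have a5 := mul_le_mul_of_nonneg_left a1 a3
    have a6 := mul_le_mul a4 a2 (h.wn_nonneg _ _) (by linarith)
    linarith
  have r0 : ∀ c ∈ K, 0 ≤ k - 1 - dn G K c := by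
    intro z hz
    have : ((#(K.filter (G.Adj z)) + 1 : ℕ) : ℝ) ≤ #K := by exact_mod_cast (dn_self hz).1
    push_cast at this
    rw [dn_eq]; linarith
  obtain ⟨M, hM⟩ : ∃ M, M = ∑ c ∈ K, (k - 1 - dn G K c) := ⟨_, rfl⟩
  have M0 : 0 ≤ M := hM ▸ sum_nonneg r0
  have M1 : ∑ c ∈ K, dn G K c = k * (k - 1) - M := by
    rw [hM, sum_sub_distrib, sum_const, nsmul_eq_mul, cK']; ring
  have M2 : ∑ c ∈ K, dn G K c * x c ≤ (k - 1) * X - M / 2 := by
    rw [hM, hX, mul_sum, sum_div, ← sum_sub_distrib]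
    refine sum_le_sum fun c hc => ?_
    have := mul_le_mul_of_nonneg_left (by linarith [hK c hc] : 1 / 2 ≤ x c) (r0 c hc)
    linarith
  have lk : (l : ℝ) ≤ k := by exact_mod_cast hlk
  obtain ⟨f, hf⟩ : ∃ f : ℝ, f = l * (k - l) := ⟨_, rfl⟩
  rw [← hf] at low
  have f0 : 0 ≤ f := by rw [hf]; exact mul_nonneg (by positivity) (by linarith)
  have f1 : 4 * f ≤ k ^ 2 := by rw [hf]; nlinarith [sq_nonneg ((k : ℝ) - 2 * l)]
  have f2 : X * (f / k) ≤ f := by
    have := mul_le_mul_of_nonneg_right X1 (by positivity : 0 ≤ f / k)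
    rwa [mul_div_cancel₀ _ (by linarith : (k : ℝ) ≠ 0)] at this
  obtain ⟨T, hT⟩ : ∃ T, T = ∑ z ∈ univ \ K, dn G K z * (k - dn G K z) := ⟨_, rfl⟩
  obtain ⟨O, hO'⟩ : ∃ T, T = ∑ z ∈ univ \ K, dn G (univ \ K) z := ⟨_, rfl⟩
  have T0 : 0 ≤ T := hT ▸ sum_nonneg fun z _ =>
    mul_nonneg (dn_nonneg _ _) (by linarith [cK' ▸ dn_le (G := G) K z])
  have O0 : 0 ≤ O := hO' ▸ sum_nonneg fun z _ => dn_nonneg _ _
  rw [← hT, ← hO'] at i3
  rw [← hO', M1] at i2
  have j1 := mul_le_mul_of_nonneg_left (i2 ▸ low) X0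
  have j2 := mul_le_mul_of_nonneg_left M2 lp.le
  have j3 := mul_le_mul_of_nonneg_right X2 O0
  have j4 := mul_le_mul_of_nonneg_right X1 M0
  have j5 := mul_nonneg ep.le T0
  have main : lam * M + (1 - 3 * ε) * (2 * T + k * O) ≤ k * M + 2 * f := by linarith
  have j6 : 0 ≤ (1 - 3 * ε) * (2 * T + k * O) := mul_nonneg (by linarith) (by positivity)
  have kk : 2 * (k : ℝ) ≤ k ^ 2 := by nlinarith
  have cl : ∀ c ∈ K, #(K.filter (G.Adj c)) + 1 = #K := by
    intro c hc
    by_contra e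
    have a1 : ((#(K.filter (G.Adj c)) + 2 : ℕ) : ℝ) ≤ #K := by
      exact_mod_cast (by have := (dn_self (G := G) hc).1; omega)
    push_cast at a1
    have a2 := single_le_sum r0 hc
    rw [← hM, dn_eq] at a2
    have a3 := mul_le_mul_of_nonneg_left (by linarith : 1 ≤ M) (by linarith : 0 ≤ lam - k)
    linarith
  have Mz : M = 0 := by
    rw [hM]
    refine sum_eq_zero fun c hc => ?_
    have : ((#(K.filter (G.Adj c)) + 1 : ℕ) : ℝ) = #K := by exact_mod_cast cl c hc
    push_cast at this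
    rw [dn_eq]; linarith
  refine ⟨fun c hc => (dn_self hc).2 (cl c hc), ?_, ?_⟩
  · rw [i2, Mz, hO']; simp [dn_eq]
  · by_contra e
    have e' : ((2 * (l * (k - l)) + 1 : ℕ) : ℝ) ≤ ((2 * ∑ z ∈ univ \ K, #(K.filter (G.Adj z)) *
        (k - #(K.filter (G.Adj z))) + k * ∑ z ∈ univ \ K, #((univ \ K).filter (G.Adj z)) : ℕ) : ℝ) := by
      exact_mod_cast not_le.mp e
    have e2 : ∀ z, ((k - #(K.filter (G.Adj z)) : ℕ) : ℝ) = k - #(K.filter (G.Adj z)) := fun z =>
      Nat.cast_sub (cK ▸ card_filter_le _ _)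
    push_cast [Nat.cast_sub hlk, e2] at e'
    simp only [← dn_eq] at e'
    rw [← hf, ← hT, ← hO'] at e'
    have a1 := mul_le_mul_of_nonneg_left e' (by linarith : 0 ≤ 1 - 3 * ε)
    have a2 := mul_le_mul_of_nonneg_left f1 ep.le
    rw [Mz] at main
    linarith

end Pool.Agent.H.MP_0daf67_co
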