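import Mathlib
import Pool.Agent.H.MP_0daf67_co.C
import Pool.Agent.H.MP_0daf67_co.D
import Pool.Agent.H.MP_0daf67_co.E
import Pool.Agent.Lib.helper7.Perron

set_option autoImplicit false

namespace Pool.Agent.H.MP_0daf67_co

open Finset Matrix

def FF (k n : ℕ) : ℕ := (n % k) * (k - n % k)

lemma FF_add {k : ℕ} (hk : 0 < k) (a b : ℕ) : FF k (a + b) ≤ FF k a + FF k b ∧
    (a % k ≠ 0 → b % k ≠ 0 → FF k (a + b) < FF k a + FF k b) := by
  unfold FF
  rw [Nat.add_mod]
  have ha := Nat.mod_lt a hk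
  have hb := Nat.mod_lt b hk
  generalize a % k = r at *
  generalize b % k = s at *
  rcases lt_or_ge (r + s) k with c | c
  · rw [Nat.mod_eq_of_lt c]
    obtain ⟨d, rfl⟩ : ∃ d, k = r + s + d := ⟨k - (r + s), by omega⟩
    rw [show r + s + d - (r + s) = d by omega, show r + s + d - r = s + d by omega,
      show r + s + d - s = r + d by omega]
    refine ⟨by nlinarith, fun h1 h2 => ?_⟩
    have := Nat.mul_pos (Nat.pos_of_ne_zero h1) (Nat.pos_of_ne_zero h2)
    nlinarith
  · rw [Nat.mod_eq_sub_mod c, Nat.mod_eq_of_lt (by omega)]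
    obtain ⟨p, hp⟩ : ∃ p, k = r + p + 1 := ⟨k - r - 1, by omega⟩
    obtain ⟨q, hq⟩ : ∃ q, s = q + p + 1 := ⟨s - p - 1, by omega⟩
    obtain ⟨d, hd⟩ : ∃ d, r = q + d + 1 := ⟨r - q - 1, by omega⟩
    subst hq hd
    rw [show q + d + 1 + (q + p + 1) - k = q by omega, show k - q = d + p + 2 by omega,
      show k - (q + d + 1) = p + 1 by omega, show k - (q + p + 1) = d + 1 by omega]
    exact ⟨by nlinarith, fun _ _ => by nlinarith⟩

lemma FF_sum {α : Type} [DecidableEq α] {k : ℕ} (hk : 0 < k) (t : α → ℕ) (O : Finset α) :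
    FF k (∑ z ∈ O, t z) ≤ ∑ z ∈ O, FF k (t z) := by
  induction O using Finset.induction_on with
  | empty => simp [FF]
  | insert a O ha ih =>
    rw [sum_insert ha, sum_insert ha]
    have := (FF_add hk (t a) (∑ z ∈ O, t z)).1
    omega

lemma arith {α : Type} [DecidableEq α] {k l e s : ℕ} (h1 : 1 ≤ l) (h2 : l < k) (O : Finset α)
    (t : α → ℕ) (ht : ∀ z, t z ≤ k) (hs : ∑ z ∈ O, t z + e = k * s + l)
    (hT : ∑ z ∈ O, t z * (k - t z) + k * e ≤ l * (k - l)) :
    e = 0 ∧ ∃ a ∈ O, t a = l ∧ ∀ z ∈ O.erase a, t z = 0 ∨ t z = k := by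
  have hk : 0 < k := by omega
  have e1 : ∀ z, FF k (t z) = t z * (k - t z) := by
    intro z
    rcases (ht z).eq_or_lt with c | c
    · simp [FF, c]
    · rw [FF, Nat.mod_eq_of_lt c]
  have e2 : FF k (k * s + l) = l * (k - l) := by
    rw [FF, Nat.mul_add_mod, Nat.mod_eq_of_lt h2]
  simp only [← e1] at hT
  have e0 : e = 0 := by
    by_contra c
    have a1 := (FF_add hk (∑ z ∈ O, t z) e).1
    have a2 := FF_sum hk t O
    have a3 : FF k e < k * e := by
      unfold FF
      have := Nat.mod_le e k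
      rcases Nat.eq_zero_or_pos (e % k) with d | d
      · rw [d]; simpa using Nat.mul_pos hk (Nat.pos_of_ne_zero c)
      · calc _ < e % k * k := Nat.mul_lt_mul_of_pos_left (by omega) d
          _ ≤ _ := by rw [mul_comm]; exact Nat.mul_le_mul_left _ this
    rw [hs, e2] at a1
    omega
  subst e0
  refine ⟨rfl, ?_⟩
  have m1 : (∑ z ∈ O, t z) % k = l := by
    rw [← add_zero (∑ z ∈ O, t z), hs, Nat.mul_add_mod, Nat.mod_eq_of_lt h2]
  obtain ⟨a, ha, na⟩ : ∃ a ∈ O, t a % k ≠ 0 := by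
    by_contra c
    push Not at c
    rw [sum_nat_mod, sum_eq_zero c] at m1
    simp at m1; omega
  have s1 := add_sum_erase O t ha
  have s2 := add_sum_erase O (fun z => FF k (t z)) ha
  have a2 := FF_sum hk t (O.erase a)
  have z0 : (∑ z ∈ O.erase a, t z) % k = 0 := by
    by_contra c
    have := (FF_add hk (t a) _).2 na c
    rw [s1, ← add_zero (∑ z ∈ O, t z), hs, e2] at this
    omega
  have ta : t a = l := by
    rw [← s1, Nat.add_mod, z0, add_zero, Nat.mod_mod] at m1
    rcases (ht a).eq_or_lt with c | c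
    · rw [c] at na; simp at na
    · rwa [Nat.mod_eq_of_lt c] at m1
  refine ⟨a, ha, ta, fun z hz => ?_⟩
  have z1 : ∑ z ∈ O.erase a, FF k (t z) = 0 := by
    have := e1 a
    rw [ta] at this
    simp only [ta] at s2
    omega
  have := sum_eq_zero_iff.mp z1 z hz
  rw [e1, Nat.mul_eq_zero] at this
  have := ht z
  omega

def RR (i j : Fin 4) : Prop := i = 0 ∨ j = 0 ∨ (i = 1 ∧ j ≠ 3) ∨ (j = 1 ∧ i ≠ 3)

instance : DecidableRel RR := fun i j => by unfold RR; infer_instance

structure Str {V : Type} [Fintype V] (G : SimpleGraph V) (τ : V → Fin 4) (a b c : ℕ) : Prop where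
  adj : ∀ v w, G.Adj v w ↔ v ≠ w ∧ RR (τ v) (τ w)
  card : ∀ i, #(univ.filter fun v => τ v = i) = ![a, b, c, 1] i

lemma Str.iso {V W : Type} [Fintype V] [Fintype W] {G : SimpleGraph V} {H : SimpleGraph W}
    {τ : V → Fin 4} {σ : W → Fin 4} {a b c : ℕ} (h : Str G τ a b c) (h' : Str H σ a b c) :
    Nonempty (G ≃g H) := by
  classical
  let e : V ≃ W := Equiv.ofFiberEquiv (f := τ) (g := σ) fun i => Fintype.equivOfCardEq (by
    rw [Fintype.card_subtype, Fintype.card_subtype, h.card, h'.card])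
  have he : ∀ v, σ (e v) = τ v := fun v => Equiv.ofFiberEquiv_map _ v
  exact ⟨⟨e, fun {v w} => by rw [h.adj, h'.adj, he, he, e.injective.ne_iff]⟩⟩

variable {V : Type} [Fintype V] [DecidableEq V] {G : SimpleGraph V} [DecidableRel G.Adj]

noncomputable def mu (k t l : ℕ) : ℝ :=
  ((k - 1) + √((k - 1) ^ 2 + 4 * (k * t + l ^ 2 / k))) / 2

lemma mu_spec {k : ℕ} (hk : 2 ≤ k) (t l : ℕ) : (k : ℝ) - 1 ≤ mu k t l ∧
    mu k t l ^ 2 - (k - 1) * mu k t l = k * t + l ^ 2 / k := by
  have K2 : (2 : ℝ) ≤ k := by exact_mod_cast hk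
  have p : (0 : ℝ) ≤ k * t + l ^ 2 / k := by positivity
  have s1 := Real.sq_sqrt (by positivity : (0 : ℝ) ≤ (k - 1) ^ 2 + 4 * (k * t + l ^ 2 / k))
  have s2 : (k : ℝ) - 1 ≤ √((k - 1) ^ 2 + 4 * (k * t + l ^ 2 / k)) :=
    Real.le_sqrt_of_sq_le (by linarith)
  unfold mu
  constructor
  · linarith
  · linarith

lemma Str.ray {τ : V → Fin 4} {k t l : ℕ} (hk : 2 ≤ k) (hl : l ≤ k) (h : Str G τ l (k - l) t) :
    ∃ r ∈ spectrum ℝ (G.adjMatrix ℝ), mu k t l ≤ r := by
  have K2 : (2 : ℝ) ≤ k := by exact_mod_cast hk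
  obtain ⟨m1, m2⟩ := mu_spec hk t l
  obtain ⟨μ, hμ⟩ : ∃ μ, μ = mu k t l := ⟨_, rfl⟩
  rw [← hμ] at m1 m2 ⊢
  have mp : μ ≠ 0 := by linarith
  have sm : ∀ f : Fin 4 → ℝ, ∑ v, f (τ v) = l * f 0 + (k - l) * f 1 + t * f 2 + f 3 := by
    intro f
    rw [← sum_fiberwise univ τ, sum_congr rfl fun i _ => by
      rw [sum_congr rfl (g := fun _ => f i) (fun v hv => by rw [(mem_filter.mp hv).2]), sum_const,
        h.card]]
    simp [Fin.sum_univ_four, Nat.cast_sub hl]
  let y : Fin 4 → ℝ := ![1, 1, k / μ, l / μ]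
  have e1 : ∀ v, (G.adjMatrix ℝ *ᵥ fun v => y (τ v)) v =
      (l * (if RR (τ v) 0 then y 0 else 0) + (k - l) * (if RR (τ v) 1 then y 1 else 0) +
        t * (if RR (τ v) 2 then y 2 else 0) + (if RR (τ v) 3 then y 3 else 0)) -
        if RR (τ v) (τ v) then y (τ v) else 0 := by
    intro v
    rw [← sm (fun j => if RR (τ v) j then y j else 0), ← add_sum_erase _ _ (mem_univ v),
      add_sub_cancel_left, mulVec, dotProduct, ← add_sum_erase _ _ (mem_univ v)]
    simp only [SimpleGraph.adjMatrix_apply, G.loopless.irrefl, if_false, zero_mul, zero_add]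
    refine sum_congr rfl fun w hw => ?_
    simp [h.adj, (ne_of_mem_erase hw).symm]
  refine Pool.Agent.Lib.helper7.Perron.exists_ge (x := fun v => y (τ v))
    (by simp [IsHermitian]) ?_ ?_
  · intro c
    have := sm (fun j => if j = 0 ∨ j = 1 then y j else 0)
    rw [sum_eq_zero fun v _ => by rw [show y (τ v) = 0 from congrFun c v]; simp] at this
    simp [y] at this
    linarith
  · simp only [dotProduct, e1]
    rw [sm (fun j => y j * y j), sm (fun j => y j * ((l * (if RR j 0 then y 0 else 0) +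
      (k - l) * (if RR j 1 then y 1 else 0) + t * (if RR j 2 then y 2 else 0) +
      (if RR j 3 then y 3 else 0)) - if RR j j then y j else 0))]
    simp [RR, y]
    have e2 : (t : ℝ) * k ^ 2 + l ^ 2 = k * (μ ^ 2 - (k - 1) * μ) := by
      rw [m2]; field_simp
    apply le_of_eq
    field_simp
    linear_combination (-1 : ℝ) * e2

lemma perron {lam : ℝ} (h : IsGreatest (spectrum ℝ (G.adjMatrix ℝ)) lam) :
    ∃ (x : V → ℝ) (u : V), (∀ v, 0 ≤ x v) ∧ (∀ v, x v ≤ 1) ∧ x u = 1 ∧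
      ∀ v, lam * x v = ∑ w, if G.Adj v w then x w else 0 := by
  have hA : (G.adjMatrix ℝ).IsHermitian := by simp [IsHermitian]
  obtain ⟨y, y0, hy⟩ := Pool.Agent.Lib.helper7.Perron.exists_eigvec h.1
  have hB : (lam • (1 : Matrix V V ℝ) - G.adjMatrix ℝ).IsHermitian :=
    IsHermitian.sub (by simp [IsHermitian]) hA
  have psd : (lam • (1 : Matrix V V ℝ) - G.adjMatrix ℝ).PosSemidef := by
    rw [hB.posSemidef_iff_eigenvalues_nonneg]
    intro i
    have h1 := hB.eigenvalues_mem_spectrum_real i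
    have : lam - hB.eigenvalues i ∈ spectrum ℝ (G.adjMatrix ℝ) := by
      rw [spectrum.mem_iff] at h1 ⊢
      intro hu
      apply h1
      convert hu.neg using 1
      simp only [Algebra.algebraMap_eq_smul_one, sub_smul]
      abel
    have := h.2 this
    simp only [Pi.zero_apply]
    linarith
  have z : (lam • (1 : Matrix V V ℝ) - G.adjMatrix ℝ) *ᵥ (fun v => |y v|) = 0 := by
    rw [← psd.dotProduct_mulVec_zero_iff]
    refine le_antisymm ?_ (psd.dotProduct_mulVec_nonneg _)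
    rw [sub_mulVec, smul_mulVec, one_mulVec, star_trivial, dotProduct_sub, dotProduct_smul,
      smul_eq_mul, sub_nonpos]
    have e1 : lam * ((fun v => |y v|) ⬝ᵥ fun v => |y v|) = y ⬝ᵥ (G.adjMatrix ℝ *ᵥ y) := by
      rw [hy, dotProduct_smul, smul_eq_mul]
      simp [dotProduct]
    rw [e1]
    simp only [dotProduct, mulVec, mul_sum]
    refine sum_le_sum fun v _ => sum_le_sum fun w _ => ?_
    simp only [SimpleGraph.adjMatrix_apply]
    split_ifs
    · simpa [abs_mul] using le_abs_self (y v * y w)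
    · simp
  obtain ⟨v0, hv0⟩ := Function.ne_iff.mp y0
  obtain ⟨u, -, hu⟩ := exists_max_image univ (fun v => |y v|) ⟨v0, mem_univ _⟩
  have p : 0 < |y u| := lt_of_lt_of_le (abs_pos.mpr hv0) (hu v0 (mem_univ _))
  refine ⟨fun v => |y v| / |y u|, u, fun v => by positivity,
    fun v => (div_le_one p).mpr (hu v (mem_univ _)), div_self p.ne', fun v => ?_⟩
  have := congrFun z v
  rw [sub_mulVec, smul_mulVec, one_mulVec] at this
  simp only [Pi.sub_apply, Pi.smul_apply, smul_eq_mul, Pi.zero_apply, sub_eq_zero, mulVec,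
    dotProduct, SimpleGraph.adjMatrix_apply, ite_mul, one_mul, zero_mul] at this
  rw [← mul_div_assoc, this, sum_div]
  exact sum_congr rfl fun w _ => by split_ifs <;> simp

lemma le_of_sq_le_sq_lemma {a b : ℝ} (h : a ^ 2 ≤ b ^ 2) (hb : 0 ≤ b) : a ≤ b :=
  (abs_le_of_sq_le_sq' h hb).2

lemma build {k l t : ℕ} (h1 : 1 ≤ l) (h2 : l < k) (hi : ∀ v, ∃ w, G.Adj v w) {K : Finset V}
    (cK : #K = k) (cl : ∀ c ∈ K, ∀ c' ∈ K.erase c, G.Adj c c')
    (s3 : 2 * (k * t + l) = 2 * (∑ z ∈ univ \ K, #(K.filter (G.Adj z))) +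
      ∑ z ∈ univ \ K, #((univ \ K).filter (G.Adj z)))
    (s2 : 2 * ∑ z ∈ univ \ K, #(K.filter (G.Adj z)) * (k - #(K.filter (G.Adj z))) +
        k * ∑ z ∈ univ \ K, #((univ \ K).filter (G.Adj z)) ≤ 2 * (l * (k - l))) :
    ∃ τ, Str G τ l (k - l) t := by
  obtain ⟨e, hee⟩ : ∃ e, ∑ z ∈ univ \ K, #((univ \ K).filter (G.Adj z)) = 2 * e :=
    ⟨k * t + l - ∑ z ∈ univ \ K, #(K.filter (G.Adj z)), by omega⟩
  rw [hee] at s2 s3
  obtain ⟨e0, a, ha, ta, hz⟩ := arith (e := e) (s := t) h1 h2 (univ \ K)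
    (fun z => #(K.filter (G.Adj z))) (fun z => cK ▸ card_filter_le _ _) (by omega) (by rw [← mul_left_comm] at s2; omega)
  subst e0
  have ind : ∀ z ∉ K, ∀ w ∉ K, ¬ G.Adj z w := by
    intro z hz w hw c
    have := sum_eq_zero_iff.mp hee z (by simpa using hz)
    exact notMem_empty w (card_eq_zero.mp this ▸ mem_filter.mpr ⟨by simpa using hw, c⟩)
  have full : ∀ z ∈ (univ \ K).erase a, #(K.filter (G.Adj z)) = k := by
    intro z hz'
    refine (hz z hz').resolve_left fun c => ?_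
    obtain ⟨w, hw⟩ := hi z
    by_cases d : w ∈ K
    · exact notMem_empty w (card_eq_zero.mp c ▸ mem_filter.mpr ⟨d, hw⟩)
    · exact ind z (by simpa using mem_of_mem_erase hz') w d hw
  have aK : a ∉ K := by simpa using ha
  have all : ∀ z ∉ K, z ≠ a → ∀ c ∈ K, G.Adj z c := by
    intro z z1 z2 c hc
    have := eq_of_subset_of_card_le (filter_subset (G.Adj z) K)
      (by rw [full z (by simp [z1, z2]), cK])
    rw [← this] at hc
    exact (mem_filter.mp hc).2
  have ct : #((univ \ K).erase a) = t := by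
    have a1 := add_sum_erase _ (fun z => #(K.filter (G.Adj z))) ha
    rw [sum_congr rfl full, sum_const, smul_eq_mul] at a1
    simp only [ta] at a1
    exact Nat.eq_of_mul_eq_mul_right (by omega : 0 < k) (by rw [mul_comm t k]; omega)
  refine ⟨fun v => if v ∈ K then (if G.Adj a v then 0 else 1) else (if v = a then 3 else 2),
    fun v w => ?_, fun i => ?_⟩
  · by_cases a1 : v ∈ K <;> by_cases a2 : w ∈ K
    · simp only [a1, a2, if_true]
      refine ⟨fun c => ⟨c.ne, ?_⟩, fun c => cl v a1 w (mem_erase.mpr ⟨c.1.symm, a2⟩)⟩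
      split_ifs <;> decide
    · have : v ≠ w := fun c => a2 (c ▸ a1)
      by_cases a3 : w = a
      · subst a3
        rw [G.adj_comm]
        by_cases a4 : G.Adj w v <;> simp [a1, a2, a4, this, RR]
      · by_cases a4 : G.Adj a v <;> simp [a1, a2, a3, a4, this, RR, (all w a2 a3 v a1).symm]
    · have : v ≠ w := fun c => a1 (c ▸ a2)
      by_cases a3 : v = a
      · subst a3
        by_cases a4 : G.Adj v w <;> simp [a1, a2, a4, this, RR]
      · by_cases a4 : G.Adj a w <;> simp [a1, a2, a3, a4, this, RR, all v a1 a3 w a2]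
    · simp only [a1, a2, if_false, ind v a1 w a2, false_iff, not_and]
      intro _
      split_ifs <;> decide
  · fin_cases i
    · refine Eq.trans (congrArg card ?_) ta
      ext v
      by_cases a1 : v ∈ K <;> by_cases a2 : G.Adj a v <;> by_cases a3 : v = a <;>
        simp [a1, a2, a3, aK]
    · have := card_filter_add_card_filter_not (s := K) (G.Adj a)
      have e3 : #(K.filter fun v => ¬ G.Adj a v) = k - l := by omega
      refine Eq.trans (congrArg card ?_) e3
      ext v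
      by_cases a1 : v ∈ K <;> by_cases a2 : G.Adj a v <;> by_cases a3 : v = a <;>
        simp [a1, a2, a3, aK]
    · refine Eq.trans (congrArg card ?_) ct
      ext v
      by_cases a1 : v ∈ K <;> by_cases a2 : G.Adj a v <;> by_cases a3 : v = a <;>
        simp [a1, a2, a3, aK]
    · refine Eq.trans (congrArg card ?_) (card_singleton a)
      ext v
      by_cases a1 : v ∈ K <;> by_cases a2 : G.Adj a v <;> by_cases a3 : v = a <;>
        simp_all

noncomputable def L0 (k : ℕ) : ℝ := LB k + 20000 * k ^ 4 * CS k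

theorem main {k l t m : ℕ} {lam : ℝ} (hk : 2 ≤ k) (hm : L0 k ^ 2 + k ^ 2 ≤ m) (h1 : 1 ≤ l)
    (h2 : l < k) (he : 2 * m = k * (k - 1) + 2 * (k * t + l)) (hG : #G.edgeFinset = m)
    (hi : ∀ v, ∃ w, G.Adj v w) (np : NP G k) (hl : IsGreatest (spectrum ℝ (G.adjMatrix ℝ)) lam)
    (hmu : mu k t l ≤ lam) : ∃ τ, Str G τ l (k - l) t := by
  have K2 : (2 : ℝ) ≤ k := by exact_mod_cast hk
  have lk : (l : ℝ) ≤ k := by exact_mod_cast h2.le
  obtain ⟨x, u, x0, x1, xu, xe⟩ := perron hl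
  obtain ⟨m1, m2⟩ := mu_spec hk t l
  have eD : D G univ univ (fun _ _ => 1) = 2 * m := by
    rw [D_dn (G := G) univ univ (fun _ => 1), ← hG]
    simp only [mul_one, dn_eq]
    exact_mod_cast (sum_congr rfl fun v _ => by
      rw [← SimpleGraph.card_neighborFinset_eq_degree, SimpleGraph.neighborFinset_eq_filter]).trans
      G.sum_degrees_eq_twice_card_edges
  have he' : (2 : ℝ) * m = k * (k - 1) + 2 * (k * t + l) := by
    have := congrArg (Nat.cast : ℕ → ℝ) he
    push_cast [Nat.cast_sub (by omega : 1 ≤ k)] at this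
    exact this
  have mono : mu k t l ^ 2 - (k - 1) * mu k t l ≤ lam ^ 2 - (k - 1) * lam := by nlinarith
  have e1 : (l : ℝ) ^ 2 / k + l * (k - l) / k = l := by field_simp; ring
  have low : D G univ univ (fun _ _ => 1) ≤
      2 * lam ^ 2 - 2 * (k - 1) * lam + k * (k - 1) + 2 * (l * (k - l) / k) := by linarith
  have e2 : (l : ℝ) * (k - l) / k ≤ k / 4 := by
    rw [div_le_iff₀ (by linarith)]; nlinarith [sq_nonneg ((k : ℝ) - 2 * l)]
  have h : Eig G k x lam u := ⟨np, hk, x0, x1, xu, xe, by linarith⟩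
  have p1 : 0 ≤ LB k := by unfold LB; positivity
  have p2 : 1 ≤ CS k := by
    have : 0 ≤ C6 k := by unfold C6; positivity
    have : 1 ≤ C7 k := by
      unfold C7
      have : 0 ≤ 100 * (k : ℝ) ^ 2 * C6 k := by positivity
      have : 0 ≤ 2 * (k : ℝ) * C6 k := by positivity
      linarith
    unfold CS
    have : (0 : ℝ) ≤ NA k := by positivity
    have : (0 : ℝ) ≤ k * 2 ^ NA k := by positivity
    linarith
  have p3 : 0 ≤ 20000 * (k : ℝ) ^ 4 * CS k := by positivity
  have big : L0 k ≤ lam := by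
    have : (0 : ℝ) ≤ l ^ 2 / k := by positivity
    refine le_of_sq_le_sq_lemma ?_ (by linarith)
    have a1 := mul_nonneg (by linarith : (0 : ℝ) ≤ k - 1) (by linarith : 0 ≤ lam)
    have a2 := mul_le_mul_of_nonneg_left K2 (by linarith : (0 : ℝ) ≤ k)
    linarith
  unfold L0 at big
  have K4 : (4 : ℝ) ≤ k ^ 2 := by nlinarith
  have p4 : (k : ℝ) ^ 2 ≤ k ^ 4 := by nlinarith
  have p5 := mul_le_mul_of_nonneg_right p4 (by linarith : 0 ≤ CS k)
  have p6 := mul_le_mul_of_nonneg_left p2 (by positivity : (0 : ℝ) ≤ k ^ 2)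
  obtain ⟨J, sJ, cJ, hU, hJ⟩ := h.caseA (by linarith) (h.caseB (by linarith))
  obtain ⟨hK, hO⟩ := h.stage2 sJ cJ hU p2 hJ (by linarith)
  have uJ : u ∉ J := fun c => (mem_U.mp (sJ c)).ne rfl
  have cK : #(insert u J) = k := by rw [card_insert_of_notMem uJ, cJ]
  obtain ⟨cl, s1, s2⟩ := h.stage3 cK h2.le hK hO low (by linarith)
  generalize insert u J = K at *
  have s3 : 2 * m = k * (k - 1) + 2 * (∑ z ∈ univ \ K, #(K.filter (G.Adj z))) +
      ∑ z ∈ univ \ K, #((univ \ K).filter (G.Adj z)) := by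
    rw [eD] at s1
    have : ((k - 1 : ℕ) : ℝ) = k - 1 := by rw [Nat.cast_sub (by omega : 1 ≤ k)]; simp
    rw [← this] at s1
    exact_mod_cast s1
  exact build h1 h2 hi cK cl (by omega) s2

end Pool.Agent.H.MP_0daf67_co
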