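import Mathlib
import Pool.Agent.H.MP_0daf67_co.F

set_option autoImplicit false

namespace Pool.Agent.H.MP_0daf67_co

open Finset SimpleGraph

def jn {α β : Type} (G : SimpleGraph α) (H : SimpleGraph β) : SimpleGraph (α ⊕ β) :=
  (G ⊕g H) ⊔ completeBipartiteGraph α β

def SS (n k l : ℕ) : SimpleGraph (Fin l ⊕ (Fin (k - l) ⊕ Fin (n - k - 1)) ⊕ Fin 1) :=
  jn ⊤ (jn ⊤ ⊥ ⊕g ⊥)

open Classical in
noncomputable def lm {V : Type} [Fintype V] [DecidableEq V] (G : SimpleGraph V) : ℝ :=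
  sSup (spectrum ℝ (G.adjMatrix ℝ))

lemma SS_str (n k l : ℕ) : Str (SS n k l)
    (Sum.elim (fun _ => 0) (Sum.elim (Sum.elim (fun _ => 1) (fun _ => 2)) (fun _ => 3)))
    l (k - l) (n - k - 1) := by
  refine ⟨?_, fun i => ?_⟩
  · rintro (v | (v | v) | v) (w | (w | w) | w) <;> simp [SS, jn, RR]
  · rw [card_filter, Fintype.sum_sum_type, Fintype.sum_sum_type, Fintype.sum_sum_type]
    fin_cases i <;> simp

open Classical in
lemma lm_iso {V W : Type} [Fintype V] [DecidableEq V] [Fintype W] [DecidableEq W]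
    {G : SimpleGraph V} {H : SimpleGraph W} (e : G ≃g H) : lm G = lm H := by
  unfold lm
  rw [← AlgEquiv.spectrum_eq (Matrix.reindexAlgEquiv ℝ ℝ e.toEquiv)]
  congr 2
  ext v w
  simp only [Matrix.coe_reindexAlgEquiv, Matrix.reindex_apply, Matrix.submatrix_apply,
    adjMatrix_apply]
  congr 1
  exact propext (e.symm.map_rel_iff)

open Classical in
lemma lm_spec {V : Type} [Fintype V] [DecidableEq V] [Nonempty V] (G : SimpleGraph V) :
    IsGreatest (spectrum ℝ (G.adjMatrix ℝ)) (lm G) := by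
  obtain ⟨l, hl⟩ := Pool.Agent.Lib.helper7.Perron.exists_isGreatest (A := G.adjMatrix ℝ)
    (by simp [Matrix.IsHermitian])
  rw [lm, hl.csSup_eq]; exact hl

theorem final (k : ℕ) (hk : 2 ≤ k) : ∃ m₀ : ℕ, ∀ m ≥ m₀, ∀ l n : ℕ, 1 ≤ l → l + 1 ≤ k →
    (n : ℚ) = (m - l) / k + (k + 3) / 2 →
    ∀ (V : Type) [Fintype V] [DecidableEq V] (G : SimpleGraph V), NP G k → G.edgeSet.ncard = m →
      (∀ v, ∃ w, G.Adj v w) →
      lm G ≤ lm (SS n k l) ∧ (lm G = lm (SS n k l) ↔ Nonempty (G ≃g SS n k l)) := by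
  classical
  refine ⟨⌈L0 k ^ 2 + k ^ 2⌉₊, fun m hm l n h1 h2 hn V _ _ G np he hi => ?_⟩
  have hm' : L0 k ^ 2 + k ^ 2 ≤ m := Nat.ceil_le.mp hm
  have hm2 : k ^ 2 ≤ m := by
    exact_mod_cast (by linarith [sq_nonneg (L0 k)] : ((k : ℝ)) ^ 2 ≤ m)
  have e1 : 2 * k * n + 2 * l = 2 * m + k * (k + 3) := by
    have k0 : (k : ℚ) ≠ 0 := by positivity
    have : (2 * k * n + 2 * l : ℚ) = 2 * m + k * (k + 3) := by rw [hn]; field_simp; ring
    exact_mod_cast this
  obtain ⟨t, rfl⟩ : ∃ t, n = t + k + 1 := ⟨n - k - 1, by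
    have : k + 1 ≤ n := by
      by_contra c
      have := Nat.mul_le_mul_left (2 * k) (by omega : n ≤ k)
      nlinarith
    omega⟩
  obtain ⟨σ, st⟩ : ∃ σ, Str (SS (t + k + 1) k l) σ l (k - l) t :=
    ⟨_, by simpa only [show t + k + 1 - k - 1 = t by omega] using SS_str (t + k + 1) k l⟩
  have e2 : 2 * m = k * (k - 1) + 2 * (k * t + l) := by
    obtain ⟨j, rfl⟩ : ∃ j, k = j + 1 := ⟨k - 1, by omega⟩
    simp only [Nat.add_sub_cancel]
    nlinarith
  have he' : #G.edgeFinset = m := by rw [← he, edgeFinset, Set.ncard_eq_toFinset_card']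
  have : Nonempty V := by
    obtain ⟨e, -⟩ := card_pos.mp (he' ▸ (by nlinarith : 0 < m) : 0 < #G.edgeFinset)
    exact ⟨e.out.1⟩
  have key : lm (SS (t + k + 1) k l) ≤ lm G → Nonempty (G ≃g SS (t + k + 1) k l) := by
    intro h
    obtain ⟨r, r1, r2⟩ := st.ray hk (by omega)
    obtain ⟨τ, hτ⟩ := main hk hm' h1 (by omega) e2 he' hi np (lm_spec G)
      (r2.trans (((lm_spec _).2 r1).trans h))
    exact hτ.iso st
  refine ⟨?_, fun h => key h.ge, fun ⟨e⟩ => lm_iso e⟩
  rcases le_total (lm G) (lm (SS (t + k + 1) k l)) with h | h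
  · exact h
  · obtain ⟨e⟩ := key h
    exact (lm_iso e).le

lemma np_of_fan {V : Type} {G : SimpleGraph V} {k : ℕ}
    (h : (jn (⊤ : SimpleGraph (Fin 1)) (pathGraph (2 * k + 1))).Free G) : NP G k := by
  intro c L h1 h2 h3
  by_contra e
  have lt : ∀ i : Fin (2 * k + 1), i.val < L.length := fun i => by omega
  refine h ⟨⟨⟨Sum.elim (fun _ => c) (fun i => L[i.val]'(lt i)), ?_⟩, ?_⟩⟩
  · rintro (v | v) (w | w) a
    · simp [jn] at a; exact absurd (Subsingleton.elim _ _) a
    · exact h3 _ (List.getElem_mem _)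
    · exact (h3 _ (List.getElem_mem _)).symm
    · simp [jn, pathGraph_adj] at a
      rcases a with a | a
      · have := List.isChain_iff_getElem.mp h2 v.val (by have := lt w; omega)
        simpa [a] using this
      · have := List.isChain_iff_getElem.mp h2 w.val (by have := lt v; omega)
        simpa [a] using this.symm
  · rintro (v | v) (w | w) a
    · rw [Subsingleton.elim v w]
    · exact absurd a (h3 _ (List.getElem_mem _)).ne
    · exact absurd a (h3 _ (List.getElem_mem _)).ne'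
    · exact congrArg _ (Fin.ext ((List.Nodup.getElem_inj_iff h1).mp a))

lemma np_of_fr {V : Type} {G : SimpleGraph V} {k : ℕ} (h : (jn (⊤ : SimpleGraph (Fin 1))
    ((⊥ : SimpleGraph (Fin k)) □ (⊤ : SimpleGraph (Fin 2)))).Free G) : NP G k := by
  intro c L h1 h2 h3
  by_contra e
  have lt : ∀ i : Fin k × Fin 2, 2 * i.1.val + i.2.val < L.length := fun i => by omega
  refine h ⟨⟨⟨Sum.elim (fun _ => c) (fun i => L[2 * i.1.val + i.2.val]'(lt i)), ?_⟩, ?_⟩⟩
  · rintro (v | ⟨v, a⟩) (w | ⟨w, b⟩) e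
    · simp [jn] at e; exact absurd (Subsingleton.elim _ _) e
    · exact h3 _ (List.getElem_mem _)
    · exact (h3 _ (List.getElem_mem _)).symm
    · simp [jn] at e
      obtain ⟨e, rfl⟩ := e
      have := List.isChain_iff_getElem.mp h2 (2 * v.val) (by omega)
      fin_cases a <;> fin_cases b
      · simp at e
      · simpa using this
      · simpa using this.symm
      · simp at e
  · rintro (v | v) (w | w) a
    · rw [Subsingleton.elim v w]
    · exact absurd a (h3 _ (List.getElem_mem _)).ne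
    · exact absurd a (h3 _ (List.getElem_mem _)).ne'
    · have := (List.Nodup.getElem_inj_iff h1).mp a
      exact congrArg _ (Prod.ext (Fin.ext (by omega)) (Fin.ext (by omega)))

end Pool.Agent.H.MP_0daf67_co
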